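import Pool.Agent.Lib.K3S.Blue
import Pool.Agent.Lib.K3E.B_IDX

/-! Project k3s: the data, the theorem on the manifold layer and the theorem. -/

open scoped Classical Topology ContDiff ComplexOrder Matrix Manifold
open Set MeasureTheory Filter

noncomputable section

namespace Pool.Agent.Lib.K3S

open Pool.Agent.Lib.SV (E Pluri)
open Pool.Agent.Lib.HS32 Pool.Agent.Lib.HLK Pool.Agent.Lib.GH
open Pool.Agent.Lib.K3E (Forms Mero chi A0)
open Pool.Agent.Lib.HS.BBR (mf)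
open Pool.Agent.Lib.RB.R32 (fam)

namespace MS

variable {n : ℕ} {M : Mf n} {I : Type} [Fintype I]

theorem clo (D : Dk M I) : M.Clo D.T := by
  have : ∀ s : Finset I, M.Clo (∑ k ∈ s, ((D.a k : ℝ) / D.c) • M.hw (D.φ k)) := fun s => by
    induction s using Finset.induction_on with
    | empty => rw [Finset.sum_empty]; exact Mf.clo_zero
    | insert a s ha ih => rw [Finset.sum_insert ha]; exact ((D.wt a).clo.smul _).add ih
  exact ((mHES n M).2.2.2.2.2.2.2.2.1 _ D.kae.toMet).neg.sub (this _)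

theorem sg [M.Cpt] (hSG : St_SG) (D : Dk M I) (k : I) :
    DX.Sg M (M.hw (D.φ k)) (M.nrC (D.φ k) (D.f k)) ∧ Dense {x | M.nrC (D.φ k) (D.f k) x ≠ 0} ∧
    ∃ C : ℝ, ∀ δ : ℝ, 0 < δ →
      ∫ x, (M.nrC (D.φ k) (D.f k) x + δ) ^ (-(1 / 2 : ℝ)) ∂M.mu D.H ≤ C :=
  hSG n M D.H _ _ _ D.kae.toMet (D.hol k) (D.wt k) fun x =>
    let ⟨e, he, hx, h⟩ := D.deg k x
    ⟨e, he, hx, fun c => (h c).1⟩

theorem vol [M.Cpt] (D : Dk M I) : 0 < ∫ x, M.dq D.H D.β x ∂M.mu D.H := by
  have hm := D.kae.toMet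
  obtain ⟨-, fin, op, -, it, -⟩ := mMU n M _ hm
  obtain ⟨r, s, -⟩ := ((mINV n M _ hm).1 _ D.cβ.toTen).2.2
  have p : M.All fun e z => (0 : ℂ) ≤ (D.β e z).det / (D.H e z).det := fun e he z hz => by
    have := D.nβ e he z hz
    simp only [Pi.zero_apply, sub_zero] at this
    exact div_nonneg this.det_nonneg (hm.pos e he z hz).det_pos.le
  obtain ⟨e, he, z, hz, h⟩ := D.big
  refine (integral_pos_iff_support_of_nonneg (fun x => (Complex.le_def.1 (p.ch x)).1)
    (it ℝ _ s.continuous)).2 (s.continuous.isOpen_support.measure_pos _ ⟨e.symm z, ?_⟩)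
  rw [Function.mem_support, r e he z hz]
  exact (Complex.pos_iff.1 (div_pos h.det_pos (hm.pos e he z hz).det_pos)).1.ne'

end MS

open MS

theorem bDT (hSG : St_SG) (hORT : St_ORT) (hKLT : St_KLT) : St_DT := by
  intro n M _ I _ D
  have fin := (mMU n M _ D.kae.toMet).2.1
  choose B B0 hB using fun k => (sg hSG D k).1.sm.exists_bound
  choose C hC using fun k => (sg hSG D k).2.2
  refine ⟨⟨D.H, D.T, D.β, fun k => M.hw (D.φ k), fun k => M.nrC (D.φ k) (D.f k),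
    fun k => (D.a k : ℝ) / D.c, D.pos, D.kae, clo D, D.cβ, D.nβ, vol D, fun k => (sg hSG D k).1,
    fun e he z hz => ?_, fun k _ => hORT n M I D k, D.nef,
    hKLT _ I _ _ _ (∑ k, B k) (∑ k, |C k|) (fun k => by positivity) (fun k =>
      ⟨(sg hSG D k).1.sm.continuous.measurable, fun x => ⟨(sg hSG D k).1.nn x,
        ((le_abs_self _).trans (hB k x)).trans (Finset.single_le_sum (fun j _ => (B0 j).le)
          (Finset.mem_univ k))⟩⟩) fun k δ hδ => ((hC k δ hδ).trans (le_abs_self _)).trans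
      (Finset.single_le_sum (f := fun k => |C k|) (fun j _ => abs_nonneg _) (Finset.mem_univ k))⟩,
    rfl, rfl⟩
  simp only [Dk.T, Pi.sub_apply, Pi.neg_apply, Finset.sum_apply, Pi.smul_apply]
  abel

theorem bMS (hHL : St_HL) (hIDX : IDX.St_IDX) (hZE : ZE.St_ZE) (hDT : St_DT) (hTW : St_TW)
    (hFIN : St_FIN) (hSG : St_SG) : St_MS := by
  intro n M _ I _ D hχ hA
  obtain ⟨L, φ, A, ψ, t1, t2, t3, t4, t5, t6⟩ := hTW n M I D
  obtain ⟨D', d1, d2⟩ := hDT n M I D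
  obtain ⟨a, a1, -, a3⟩ := hZE n M I D'
  rw [d1] at a3
  rw [d1, d2] at a1
  have h1 := (hIDX n M D.H L φ A ψ D.pos D.kae t3 t4).2 fun c => hχ (by
    rw [t1, t2] at c
    simp only [chi, K3E.IDX.rk]
    exact c)
  obtain ⟨m, hm, t, u1, e, he, z, hz, u2⟩ := hFIN n M D.H L φ A (fun b => (t4 b).c) hA
    ((h1.sdiff (finite_lt_nat 1)).mono fun b hb => by
      have hc : (0 : ℝ) < (b * D.c : ℕ) :=
        Nat.cast_pos.2 (Nat.mul_pos (Nat.le_of_not_lt hb.2) D.c0)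
      have t5' := t5 b
      generalize ((b * D.c : ℕ) : ℝ) = c at hc t5'
      obtain ⟨C, hC⟩ := a3 (2 * n * c) (by have := D.pos; positivity)
      refine hHL n M D.H _ _ C D.pos D.kae (t4 b).wl (fun δ hδ => ?_) hb.1
      have p : 0 < min 1 (δ / c) := lt_min one_pos (div_pos hδ hc)
      have q := a1 _ ⟨p, min_le_left _ _⟩
      refine ⟨c * min 1 (δ / c), ⟨mul_pos hc p, ?_⟩, fun x => c * a (min 1 (δ / c)) x,
        q.sm.const_mul c, fun x => mul_nonpos_of_nonneg_of_nonpos hc.le (q.np x),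
        fun e h z hz => ?_, ?_⟩
      · rw [← le_div_iff₀' hc]
        exact min_le_right _ _
      · have r := Mf.psd_rsmul (q.kae.pos e h z hz).posSemidef hc.le
        have s := ((mLAP n M _ _ q.sm q.sm).1 c e h z hz).2.2.2.1
        simp only [Pi.add_apply, Pi.smul_apply, Pi.zero_apply, sub_zero, t5' e h z hz, s,
          smul_add, smul_smul] at r ⊢
        rwa [add_right_comm]
      · simpa only [mul_assoc] using hC _ ⟨p, min_le_left _ _⟩)
  have o : IsOpen {x | x ∈ e.source ∧ t e (e x) ≠ 0} := isOpen_iff_mem_nhds.2 fun x hx => by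
    filter_upwards [e.open_source.mem_nhds hx.1, ((u1.hol e he _ (e.map_source hx.1)).continuousAt.comp
      (e.continuousAt hx.1)).eventually_ne hx.2] with y h1 h2 using ⟨h1, h2⟩
  have dn : Dense (⋂ k, {x | M.nrC (D.φ k) (D.f k) x ≠ 0}) := dense_iInter_of_isOpen
    (fun k => isOpen_ne_fun (sg hSG D k).1.sm.continuous continuous_const) fun k => (sg hSG D k).2.1
  obtain ⟨x, x1, x2⟩ := dn.inter_open_nonempty _ o
    ⟨e.symm z, e.map_target hz, by rwa [e.right_inv hz]⟩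
  refine ⟨_, Nat.mul_pos hm D.c0, _, t6 m t u1, e, he, e x, e.map_source x1.1, mul_ne_zero x1.2
    (Finset.prod_ne_zero_iff.2 fun k _ => pow_ne_zero _ ?_)⟩
  have := mem_iInter.1 x2 k
  rwa [mem_ofPred_eq, Mf.nrC_ne, (D.hol k).toSecC.ne_iff he x1.1] at this

theorem bTOP (hMS : St_MS) (hRS : St_RS) (hBRG : St_BRG) (hFRM : K3E.St_FRM) (hMER : K3E.St_MER) :
    St_TOP := by
  intro n X ι I _ _ _ _ _ _ _ G β U f u a hG hβ hC ha hN hχ hA
  rcases Nat.eq_zero_or_pos n with rfl | hn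
  · exact ⟨1, one_pos, 1, fun x => differentiable_of_subsingleton _, one_ne_zero⟩
  have h1 : chi (fam G) 1 ≠ 0 := fun h => hχ (by
    rw [← Finset.sum_range_reflect]
    refine Eq.trans ?_ ((congrArg ((-1 : ℤ) ^ n * ·) h).trans (mul_zero _))
    rw [chi, Finset.mul_sum]
    refine Finset.sum_congr rfl fun q hq => ?_
    obtain ⟨p, rfl⟩ := Nat.exists_eq_add_of_le' (Nat.lt_succ_iff.1 (Finset.mem_range.1 hq))
    rw [Nat.add_sub_cancel, Nat.add_sub_cancel, hFRM _ X (fam G) p q rfl, ← mul_assoc, ← pow_add,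
      add_assoc, pow_add, ← two_mul, pow_mul, neg_one_sq, one_pow, mul_one])
  obtain ⟨D, hD⟩ := hBRG n X ι I G β U f u a hC hn hG hβ ha hN
  obtain ⟨r1, r2, r3⟩ := hRS n (mf n X) ι U hC.opn hC.cov
  have : (KP.T6.rs (mf n X) (U := U) hC.opn hC.cov).Cpt := ⟨‹_›, ‹_›, ‹_›⟩
  obtain ⟨m, hm, t, t1, t2⟩ := hMS n _ I D (by rw [hD, r1]; exact h1)
    (r2 fun g hg => hA g ((hMER n X).1 g hg))
  obtain ⟨t', t3, t4⟩ := r3 m t t1 t2
  exact ⟨m, hm, (hMER n X).2 m t' t3 t4⟩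

end Pool.Agent.Lib.K3S
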