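import Pool.Agent.Lib.K3S.Blue
import Pool.Agent.Lib.KP.B_NHS
import Pool.Agent.Lib.KP.B_KLI
import Pool.Agent.Lib.EXA.B_MINT

/-! Project k3s, row `SG`: the norm of a section with a smooth zero set. -/

open scoped Classical Topology ContDiff ComplexOrder Matrix ENNReal
open Set MeasureTheory Complex Metric Filter

noncomputable section

namespace Pool.Agent.Lib.K3S

open Pool.Agent.Lib.SV (E)
open Pool.Agent.Lib.HS32 Pool.Agent.Lib.KP

namespace SG

variable {n : ℕ} {f : E n → ℂ} {z : E n}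

theorem coord (j : Fin n) (R : ℝ) (hR : 0 < R) :
    ∫⁻ w in ball (0 : E n) R, ‖w j‖ₑ ^ (-2 * (1 / 2) : ℝ) < ⊤ := by
  have hI := EXA.MINT.int_prod {j} (fun _ => -2 * (1 / 2)) (fun _ _ => by norm_num) R hR
  refine lt_of_eq_of_lt (lintegral_congr_ae (ae_restrict_of_ae
    ((EXA.MINT.ae_off {j}).mono fun y hy => ?_))) hI.lintegral_lt_top
  beta_reduce
  rw [Finset.prod_singleton, ← ofReal_norm, ENNReal.ofReal_rpow_of_pos
    (norm_pos_iff.2 (hy j (Finset.mem_singleton_self j)))]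

theorem unit (hf : ContinuousAt f z) (h0 : f z ≠ 0) :
    ∃ W ∈ 𝓝 z, ∫⁻ w in W, ‖f w‖ₑ ^ (-2 * (1 / 2) : ℝ) < ⊤ := by
  have ha : ‖f z‖ₑ ^ (-2 * (1 / 2) : ℝ) ≠ ⊤ := by simpa using h0
  obtain ⟨W, hW, o, hz⟩ := _root_.mem_nhds_iff.1 (inter_mem (ball_mem_nhds z one_pos)
    ((ENNReal.continuous_rpow_const.continuousAt.comp hf.enorm).eventually
      (gt_mem_nhds (ENNReal.lt_add_right ha one_ne_zero))))
  refine ⟨W, o.mem_nhds hz, (setLIntegral_mono' o.measurableSet fun w hw => (hW hw).2.le).trans_lt ?_⟩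
  rw [setLIntegral_const]
  exact ENNReal.mul_lt_top (ENNReal.add_lt_top.2 ⟨ha.lt_top, ENNReal.one_lt_top⟩)
    ((measure_mono fun w hw => (hW hw).1).trans_lt measure_ball_lt_top)

theorem smooth (hf : HolN f z) (h0 : fderiv ℂ f z ≠ 0) :
    ∃ W ∈ 𝓝 z, ∫⁻ w in W, ‖f w‖ₑ ^ (-2 * (1 / 2) : ℝ) < ⊤ := by
  obtain ⟨j, hj⟩ : ∃ j, fderiv ℂ f z (Pi.single j 1) ≠ 0 := by
    by_contra! h
    exact h0 (ContinuousLinearMap.coe_injective ((Pi.basisFun ℂ (Fin n)).ext fun j => by
      simpa using h j))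
  let Φ : E n → E n := fun w => w + (f w - w j) • Pi.single j 1
  have hΦ : ContDiffAt ℝ ∞ Φ z := contDiffAt_id.add
    ((((mHOL n f z).2.2 hf).1.sub (contDiff_apply ℝ ℂ j).contDiffAt).smul contDiffAt_const)
  have d : (fderiv ℝ Φ z).det ≠ 0 := by
    have t : HasFDerivAt Φ _ z := ((hasFDerivAt_id z).add ((hf.self_of_nhds.hasFDerivAt.sub
      (hasFDerivAt_apply j z)).smul_const (Pi.single j (1 : ℂ) : E n))).restrictScalars ℝ
    rw [t.fderiv]
    refine fun h => LinearMap.det_eq_zero_iff_ker_ne_bot.1 h (LinearMap.ker_eq_bot'.2 fun v hv => ?_)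
    have e : v + (fderiv ℂ f z v - v j) • (Pi.single j 1 : E n) = 0 := hv
    have e1 : fderiv ℂ f z v = 0 := by simpa using congrFun e j
    have e2 := congrArg (fderiv ℂ f z) e
    rw [map_add, map_smul, map_zero, e1, zero_add, smul_eq_mul, mul_eq_zero, or_iff_left hj] at e2
    rwa [e1, e2, zero_smul, add_zero] at e
  have hd := (hΦ.differentiableAt (by simp)).hasFDerivAt
  rw [← (fderiv ℝ Φ z).coe_toContinuousLinearEquivOfDetNeZero d] at hd
  let P := hΦ.toOpenPartialHomeomorph Φ hd (by simp)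
  have c : ContinuousAt (fun w => |(fderiv ℝ Φ w).det|) z :=
    (ContinuousLinearMap.continuous_det.continuousAt.comp
      (hΦ.continuousAt_fderiv (by simp))).abs
  have a0 : 0 < |(fderiv ℝ Φ z).det| / 2 := half_pos (abs_pos.2 d)
  obtain ⟨W, hW, o, hz⟩ := _root_.mem_nhds_iff.1 (inter_mem (inter_mem
    (P.open_source.mem_nhds (hΦ.mem_toOpenPartialHomeomorph_source hd (by simp)))
    (c.eventually (lt_mem_nhds (half_lt_self (abs_pos.2 d))))) (inter_mem
      ((hΦ.of_le (m := 1) (by simp)).eventually (by simp))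
      (hΦ.continuousAt.norm.eventually (gt_mem_nhds (lt_add_one _)))))
  refine ⟨W, o.mem_nhds hz, ?_⟩
  have k := (lintegral_mono_set (s := Φ '' W) (by
    rintro _ ⟨w, hw, rfl⟩
    exact mem_ball_zero_iff.2 (hW hw).2.2)).trans_lt (coord j (‖Φ z‖ + 1) (by positivity))
  rw [lintegral_image_eq_lintegral_abs_det_fderiv_mul volume o.measurableSet
    (fun w hw => (ContDiffAt.differentiableAt (show ContDiffAt ℝ 1 Φ w from (hW hw).2.1)
      one_ne_zero).hasFDerivAt.hasFDerivWithinAt)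
    (P.injOn.mono fun w hw => (hW hw).1.1)] at k
  refine ENNReal.lt_top_of_mul_ne_top_right (LT.lt.ne ?_) (ENNReal.ofReal_pos.2 a0).ne'
  rw [← lintegral_const_mul' _ _ ENNReal.ofReal_ne_top]
  refine (setLIntegral_mono' o.measurableSet fun w hw => ?_).trans_lt k
  rw [show Φ w j = f w by simp [Φ]]
  exact mul_le_mul_left (ENNReal.ofReal_le_ofReal (le_of_lt (hW hw).1.2)) _

theorem abs_log {s : ℝ} (h : 0 ≤ s) : ‖Real.log s‖ ≤ s + 2 * s ^ (-(1 / 2) : ℝ) := by
  have h1 := Real.log_le_self h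
  have h2 := Real.log_le_rpow_div (inv_nonneg.2 h) one_half_pos
  have h3 := Real.rpow_nonneg h (-(1 / 2))
  rw [Real.log_inv, Real.inv_rpow h, ← Real.rpow_neg h] at h2
  exact abs_le.2 ⟨by linarith, by linarith⟩

end SG

theorem bSG : St_SG := by
  intro n M _ H L f φ hH hf hφ h
  have hl : M.Lct f (1 / 2) := fun x => by
    obtain ⟨e, he, hx, k⟩ := h x
    have o : HolN (f e) (e x) :=
      (e.open_target.eventually_mem (e.map_source hx)).mono fun w hw => hf.hol e he w hw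
    refine ⟨e, he, hx, ?_⟩
    by_cases c : f e (e x) = 0
    · exact SG.smooth o (k c)
    · exact SG.unit o.self_of_nhds.continuousAt c
  have s := hφ.nr_sm hf.toSecC
  have p := M.nrC_nonneg φ f
  have m := s.continuous.measurable
  refine ⟨⟨s, p, hφ.clo, fun e he z hz => ?_, fun G hG => ?_, fun G hG => ?_⟩,
    st_KLI n M H L f φ _ hH hf hφ one_half_pos hl⟩
  · obtain ⟨h1, h2, -⟩ := st_NHS n M L f φ hf hφ e he z hz
    rw [h1, h2, smul_sub, smul_smul, smul_smul, sq, sub_add_cancel]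
  · refine measure_mono_null (fun x (hx : _ = _) => ?_)
      (ae_lt_top (m.ennreal_ofReal.pow_const _) (T13.glob hG hf.toSecC hφ hl).ne)
    simp [hx]
  · have i : Integrable (fun x => M.nrC φ f x ^ (-(1 / 2) : ℝ)) (M.mu G) :=
      ⟨(m.pow_const _).aestronglyMeasurable, (hasFiniteIntegral_iff_ofReal
        (.of_forall fun x => Real.rpow_nonneg (p x) _)).2 ((lintegral_mono fun x => by
          rcases (p x).eq_or_lt with e | e
          · simp [← e]
          · exact (ENNReal.ofReal_rpow_of_pos e).ge).trans_lt (T13.glob hG hf.toSecC hφ hl))⟩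
    exact (((mMU n M G hG).2.2.2.2.1 ℝ _ s.continuous).add (i.const_mul 2)).mono'
      m.log.aestronglyMeasurable (.of_forall fun x => SG.abs_log (p x))

end Pool.Agent.Lib.K3S
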