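import Pool.Agent.Lib.K3S.Blue
import Pool.Agent.Lib.ZE45.Kit
import Pool.Agent.Lib.KP.B_NHS

/-! The contracted hypersurfaces are orthogonal to the form. -/

open scoped Classical Topology ContDiff ComplexOrder Matrix
open Set MeasureTheory Filter

noncomputable section

namespace Pool.Agent.Lib.K3S

open Pool.Agent.Lib.SV (E)
open Pool.Agent.Lib.HS32 Pool.Agent.Lib.DM

namespace ORT

theorem adj {n : ℕ} (B : Mat n) {c v : Fin n → ℂ} (w : Fin n → ℂ) (h0 : v ≠ 0) (hv : B *ᵥ v = 0)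
    (hc : c ⬝ᵥ v = 0) : (B.adjugate * Matrix.vecMulVec w c).trace = 0 := by
  have k : B.adjugateᵀ *ᵥ c = 0 := by
    rw [Matrix.adjugate_transpose, ← Matrix.cramer_eq_adjugate_mulVec]
    funext j
    rw [Matrix.cramer_transpose_apply, Pi.zero_apply, ← Matrix.exists_mulVec_eq_zero_iff]
    refine ⟨v, h0, funext fun i => ?_⟩
    by_cases h : i = j
    · subst h
      simpa [Matrix.mulVec] using hc
    · simpa [Matrix.mulVec, Matrix.updateRow_ne h] using congrFun hv i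
  rw [Matrix.mul_vecMulVec, Matrix.trace_vecMulVec, dotProduct_comm, Matrix.dotProduct_mulVec,
    ← Matrix.mulVec_transpose, k, zero_dotProduct]

theorem fd_sum {n : ℕ} (A : E n →L[ℂ] ℂ) (v : E n) :
    (fun j => A (Pi.single j 1)) ⬝ᵥ v = A v := by
  conv_rhs => rw [← Finset.univ_sum_single v, map_sum]
  refine Finset.sum_congr rfl fun j _ => ?_
  rw [mul_comm, ← smul_eq_mul, ← map_smul, ← Pi.single_smul, smul_eq_mul, mul_one]

end ORT

theorem bORT (hSG : St_SG) : St_ORT := by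
  intro n M _ I _ D k η η0
  have hs := (hSG n M D.H (D.L k) (D.f k) (D.φ k) D.kae.toMet (D.hol k) (D.wt k) fun x =>
    (D.deg k x).imp fun e he => ⟨he.1, he.2.1, fun h => (he.2.2 h).1⟩).1
  refine K63.exc D.kae D.cβ D.nβ (ZE45.bridge D.kae.toMet hs) (fun x hx => ?_) η0
  obtain ⟨e, he, hx', hd⟩ := D.deg k x
  have hz := e.map_source hx'
  have f0 : D.f k e (e x) = 0 := by
    rw [((D.wt k).nr_rep (D.hol k).toSecC).at he hx'] at hx
    exact Complex.normSq_eq_zero.1 ((mul_eq_zero.1 hx).resolve_right (Real.exp_pos _).ne')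
  obtain ⟨d0, v, v0, dv, bv⟩ := hd f0
  have cv : M.cv (D.φ k) (D.f k) e (e x) = fun j => fderiv ℂ (D.f k e) (e x) (Pi.single j 1) :=
    funext fun j => by
      rw [Mf.cv, f0, zero_mul, sub_zero, (mHOL n _ _).2.1 ((D.hol k).hol e he _ hz) j]
  have pk : K63.pk M (M.nrC (D.φ k) (D.f k)) (M.hw (D.φ k)) e (e x) =
      Real.exp (-D.φ k e (e x)) • Matrix.vecMulVec (star (M.cv (D.φ k) (D.f k) e (e x)))
        (M.cv (D.φ k) (D.f k) e (e x)) := by
    rw [K63.pk, (KP.st_NHS n M _ _ _ (D.hol k) (D.wt k) e he _ hz).1, sub_add_cancel]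
  refine ⟨e, he, hx', ?_, ?_⟩
  · rw [pk]
    refine smul_ne_zero (Real.exp_pos _).ne' fun h => d0 ?_
    have c0 : M.cv (D.φ k) (D.f k) e (e x) = 0 := by
      simpa using h
    ext w
    rw [← ORT.fd_sum, ← cv, c0, zero_dotProduct]
    rfl
  · rw [pk, Matrix.mul_smul, Matrix.trace_smul, ORT.adj _ _ v0 bv (by rw [cv, ORT.fd_sum, dv]),
      smul_zero]

end Pool.Agent.Lib.K3S
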