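import Pool.Agent.Lib.K3S.Blue
import Pool.Agent.Lib.KP.Kit

/-! Row TW: the tower of line bundles. -/

open scoped Classical Topology Matrix
open Set Filter Complex

noncomputable section

namespace Pool.Agent.Lib.K3S

open Pool.Agent.Lib.HS32 Pool.Agent.Lib.HS32.Mf
open Pool.Agent.Lib.K3E (kan wk triv)

namespace TW

variable {n : ℕ} {M : Mf n} {L L' : M.Co} {φ ψ : M.Fam ℝ}

/-- The sum of two bundles. -/
def sm2 (L L' : M.Co) : M.Co where
  c e e' x := L.c e e' x * L'.c e e' x
  hol e he e' he' x hx hx' :=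
    ((L.hol e he e' he' x hx hx').and (L'.hol e he e' he' x hx hx')).mono fun _ h => h.1.mul h.2
  ne e he e' he' x hx hx' := mul_ne_zero (L.ne e he e' he' x hx hx') (L'.ne e he e' he' x hx hx')
  mul e he e' he' x hx hx' e'' he'' hx'' := by
    rw [L.mul e he e' he' x hx hx' e'' he'' hx'', L'.mul e he e' he' x hx hx' e'' he'' hx'']
    ring

/-- The dual bundle. -/
def iv (L : M.Co) : M.Co where
  c e e' x := (L.c e e' x)⁻¹
  hol e he e' he' x hx hx' := by
    have h := L.hol e he e' he' x hx hx'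
    have h0 : L.c e e' (e'.symm (e' x)) ≠ 0 := by
      rw [e'.left_inv hx']
      exact L.ne e he e' he' x hx hx'
    filter_upwards [h, h.self_of_nhds.continuousAt.eventually_ne h0] with w h1 h2
    exact h1.inv h2
  ne e he e' he' x hx hx' := inv_ne_zero (L.ne e he e' he' x hx hx')
  mul e he e' he' x hx hx' e'' he'' hx'' := by
    rw [L.mul e he e' he' x hx hx' e'' he'' hx'', mul_inv]

theorem wmu (h : M.WtC L φ) (h' : M.WtC L' ψ) : M.WtC (sm2 L L') (φ + ψ) :=
  ⟨fun e he z hz => (h.sm e he z hz).add (h'.sm e he z hz), fun e he e' he' x hx hx' => by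
    have a := h.cmp e he e' he' x hx hx'
    have b := h'.cmp e he e' he' x hx hx'
    simp only [Pi.add_apply, sm2, map_mul] at a b ⊢
    rw [a, b, Real.log_mul (normSq_pos.2 (L.ne e he e' he' x hx hx')).ne'
      (normSq_pos.2 (L'.ne e he e' he' x hx hx')).ne']
    ring⟩

theorem wiv (h : M.WtC L φ) : M.WtC (iv L) ((-1 : ℝ) • φ) :=
  ⟨fun e he z hz => (h.sm e he z hz).const_smul (-1 : ℝ), fun e he e' he' x hx hx' => by
    have a := h.cmp e he e' he' x hx hx'
    simp only [Pi.smul_apply, smul_eq_mul, iv, map_inv₀, Real.log_inv] at a ⊢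
    rw [a]
    ring⟩

theorem prd {I : Type} {L : I → M.Co} {φ : I → M.Fam ℝ} (h : ∀ k, M.WtC (L k) (φ k)) (a : I → ℕ)
    (s : Finset I) : ∃ (P : M.Co) (χ : M.Fam ℝ), M.WtC P χ ∧
      (∀ e e' x, P.c e e' x = ∏ k ∈ s, (L k).c e e' x ^ a k) ∧
      M.All fun e z => M.hw χ e z = ∑ k ∈ s, (a k : ℝ) • M.hw (φ k) e z := by
  induction s using Finset.induction_on with
  | empty =>
    refine ⟨triv M, 0, ⟨fun e _ z _ => contDiffAt_const, fun e _ e' _ x _ _ => by simp [triv]⟩,
      fun _ _ _ => rfl, fun e _ z _ => ?_⟩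
    simp only [Mf.hw, Pi.zero_apply, hess_const, Finset.sum_empty]
  | insert k s hk ih =>
    obtain ⟨P, χ, p1, p2, p3⟩ := ih
    obtain ⟨q1, q2⟩ := (h k).pw (a k)
    refine ⟨_, _, wmu q1 p1, fun e e' x => ?_, fun e he z hz => ?_⟩
    · rw [Finset.prod_insert hk, ← p2]
      rfl
    · beta_reduce
      rw [hw_add (q1.sm e he z hz) (p1.sm e he z hz), q2 e he z hz, p3 e he z hz,
        Finset.sum_insert hk]

end TW

open TW in
theorem bTW (hKAN : K3E.St_KAN) : St_TW := fun n M _ I _ D => by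
  obtain ⟨P, χ, p1, p2, p3⟩ := prd D.wt D.a Finset.univ
  have k := fun a => hKAN n M D.H a D.kae.toMet
  have wa := wmu (k D.c).1 (wiv p1)
  have ha : M.All fun e z => M.hw (wk D.H D.c + (-1 : ℝ) • χ) e z = (D.c : ℝ) • D.T e z :=
    fun e he z hz => by
      have c0 : (D.c : ℝ) ≠ 0 := Nat.cast_ne_zero.2 D.c0.ne'
      beta_reduce
      rw [hw_add ((k D.c).1.sm e he z hz) ((wiv p1).sm e he z hz), hw_smul _ (p1.sm e he z hz),
        (k D.c).2 e he z hz, p3 e he z hz]
      simp only [Dk.T, Pi.sub_apply, Pi.neg_apply, Finset.sum_apply, Pi.smul_apply,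
        smul_neg, Finset.smul_sum, smul_smul, mul_div_cancel₀ _ c0, neg_mul,
        one_mul, neg_smul, Finset.sum_neg_distrib, sub_eq_add_neg, smul_add]
  generalize hA : sm2 (kan M D.c) (iv P) = A at wa
  generalize wk D.H D.c + (-1 : ℝ) • χ = ψ at wa ha
  let L : ℕ → M.Co := fun b => Nat.rec (kan M 1) (fun _ X => sm2 X A) b
  let φ : ℕ → M.Fam ℝ := fun b => Nat.rec (wk D.H 1) (fun _ X => X + ψ) b
  have w : ∀ b, M.WtC (L b) (φ b) := fun b => by
    induction b with
    | zero => exact (k 1).1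
    | succ b ih => exact wmu ih wa
  refine ⟨L, φ, A, ψ, rfl, rfl, ⟨w 0, fun e _ e' _ x _ _ => by simp [L, kan, triv, Co.tw],
    fun e _ z _ => by simp [φ, wk]⟩, fun b => ⟨w b, wa, w (b + 1), fun _ _ _ _ _ _ _ => rfl,
    fun _ _ _ _ => rfl⟩, fun b => ?_, fun m t ht => ⟨⟨fun e he z hz => ?_,
      fun e he e' he' x hx hx' => ?_⟩, fun e he z hz => ?_⟩⟩
  · induction b with
    | zero =>
      intro e he z hz
      have := (k 1).2 e he z hz
      simp only [Nat.cast_one, one_smul] at this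
      simp only [zero_mul, Nat.cast_zero, zero_smul]
      exact (congrArg (· + M.ric D.H e z) this).trans (neg_add_cancel _)
    | succ b ih =>
      intro e he z hz
      have h1 : M.hw (φ (b + 1)) e z = _ := hw_add ((w b).sm e he z hz) (wa.sm e he z hz)
      rw [h1, add_right_comm, ih e he z hz, ha e he z hz, ← add_smul, add_mul, one_mul,
        Nat.cast_add]
  · exact (ht.sm e he z hz).mul
      (contDiffAt_prod fun i _ => ((D.hol i).sm e he z hz).pow _)
  · have h1 := ht.cmp e he e' he' x hx hx'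
    have h2 := fun i => (D.hol i).cmp e he e' he' x hx hx'
    have h3 := P.ne e he e' he' x hx hx'
    have h4 : ∏ i, (D.L i).c e e' x ^ (m * D.a i) = P.c e e' x ^ m := by
      rw [p2, ← Finset.prod_pow]
      exact Finset.prod_congr rfl fun i _ => by rw [mul_comm, pow_mul]
    beta_reduce at h1 h2 h3 ⊢
    rw [← hA] at h1
    simp only [Co.pw, sm2, iv, kan, triv, Co.tw, mul_one] at h1
    simp only [h1, h2, mul_pow, Finset.prod_mul_distrib, h4, inv_pow]
    rw [mul_comm m, pow_mul]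
    field_simp
  · exact (ht.hol e he z hz).mul
      (HasFDerivAt.finsetProd fun i _ =>
        (((D.hol i).hol e he z hz).fun_pow _).hasFDerivAt).differentiableAt

end Pool.Agent.Lib.K3S
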