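import Pool.Agent.Lib.K3S.Blue
import Pool.Agent.Lib.K3E.B_RK1
import Pool.Agent.Lib.K3E.B_CRK
import Pool.Agent.Lib.K3E.B_ID
import Pool.Agent.Lib.K3E.B_LOC

/-! Row FIN: proportional sections give a section of a multiple of the twist. -/

open scoped Classical Topology ContDiff Matrix
open Set Filter Metric

noncomputable section

namespace Pool.Agent.Lib.K3S

open Pool.Agent.Lib.SV (E)
open Pool.Agent.Lib.HS32 Pool.Agent.Lib.HLK Pool.Agent.Lib.K3E Pool.Agent.Lib.K3E.RK1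
open Pool.Agent.Lib.NV5.CRMb (mn)

namespace FIN

variable {n : ℕ} {M : Mf n} {σ : Type} [Fintype σ]

/-- A holomorphic section, not zero, with the transition matrices `T` twisted by `a A`. -/
structure Tc (A : M.Co) (T : M.Ch → M.Ch → M.X → Mx σ) (a : ℕ) (W : M.Fam (σ → ℂ)) : Prop where
  hol : Hol W
  nz : Nz W
  cmp : M.Ov fun e e' x => W e (e x) = (A.c e e' x ^ a)⁻¹ • T e e' x *ᵥ W e' (e' x)

variable {A : M.Co} {T : M.Ch → M.Ch → M.X → Mx σ} {a k : ℕ} {u v : M.Fam (σ → ℂ)}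

theorem Tc.tw (h : Tc A T a v) : Tw M (fun e e' x => (A.c e e' x ^ a)⁻¹ • T e e' x) 0 v :=
  ⟨h.hol, h.nz, fun e he e' he' x hx hx' => by
    beta_reduce
    rw [pow_zero, inv_one, one_smul, Matrix.smul_mulVec]
    exact h.cmp e he e' he' x hx hx'⟩

theorem crk (h : {a : ℕ | ∃ W, Tc A T a W}.Infinite) :
    ∃ (τ : Type) (_ : Fintype τ) (T' : M.Ch → M.Ch → M.X → Mx τ) (S : Set ℕ)
      (s : ℕ → M.Fam (τ → ℂ)), S.Infinite ∧ (∀ a ∈ S, Tc A T' a (s a)) ∧
      ∀ a ∈ S, ∀ b ∈ S, M.All fun e z => ∀ i j, s a e z i * s b e z j = s a e z j * s b e z i := by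
  choose! W hW using fun a (ha : a ∈ {a : ℕ | ∃ W, Tc A T a W}) => ha
  obtain ⟨r, S, α, h1, h2, h3⟩ := NV5.CRMb.main
    (X := {p : M.Ch × E n // p.1 ∈ M.C ∧ p.2 ∈ p.1.target}) _ h (fun p a => W a p.1.1 p.1.2)
    (fun a ha => by
      obtain ⟨e, he, z, hz, k⟩ := (hW a ha).nz
      obtain ⟨j, hj⟩ := Function.ne_iff.1 k
      exact ⟨⟨(e, z), he, hz⟩, j, hj⟩) 0
  refine ⟨Fin r → σ, inferInstance, fun e e' x => Matrix.of fun I J => ∏ k, T e e' x (I k) (J k), S,
    fun a e z => mn (fun b => W b e z) (α a), h1, fun a ha => ?_,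
    fun a ha b hb e he z hz => h3 a ha b hb ⟨(e, z), he, hz⟩⟩
  obtain ⟨-, k1, k2, p, I, k3⟩ := h2 a ha
  refine ⟨fun e he z hz I => ?_, ⟨_, p.2.1, _, p.2.2, fun c => k3 (congrFun c I)⟩,
    fun e he e' he' x hx hx' => funext fun I => ?_⟩
  · have : ∀ᶠ w in 𝓝 z, ∀ i j, DifferentiableAt ℂ (fun y => W (α a i) e y j) w :=
      eventually_all.2 fun i => eventually_all.2 fun j => (hW _ (k1 i)).hol e he z hz j
    filter_upwards [this] with w hw
    simp only [mn, Matrix.det_apply', Matrix.of_apply]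
    exact DifferentiableAt.fun_sum fun q _ => (differentiableAt_const _).mul
      (HasFDerivAt.finsetProd fun i _ => (hw (q i) (I i)).hasFDerivAt).differentiableAt
  · refine (CRK.law (T e e' x) (fun b => (A.c e e' x ^ b)⁻¹) _ (fun b => W b e' (e' x)) _
      (fun i => (hW _ (k1 i)).cmp e he e' he' x hx hx') I).trans ?_
    rw [Finset.prod_inv_distrib, Finset.prod_pow_eq_pow_sum, k2]
    rfl

theorem lw (hu : Tc A T (a + k) u) (hv : Tc A T a v)
    (h : M.All fun e z => ∀ i j, u e z i * v e z j = u e z j * v e z i) : M.Ov fun e e' x =>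
      rt (u e' (e' x)) (v e' (e' x)) = rt (u e (e x)) (v e (e x)) * A.c e e' x ^ k := by
  intro e he e' he' x hx hx'
  by_cases h0 : v e' (e' x) = 0
  · rw [zero_iff hv.tw e he e' he' x hx hx' h0, h0, rt_zero, rt_zero, zero_mul]
  have h1 : v e (e x) ≠ 0 := fun k => h0 (zero_iff hv.tw e' he' e he x hx' hx k)
  have hd := A.ne e he e' he' x hx hx'
  obtain ⟨i, hi⟩ := Function.ne_iff.1 h0
  have h2 := eq_div (h e' he' _ (e'.map_source hx')) hi
  generalize u e' (e' x) i / v e' (e' x) i = t at h2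
  have h3 : u e (e x) = (t / A.c e e' x ^ k) • v e (e x) := by
    rw [hu.cmp e he e' he' x hx hx', hv.cmp e he e' he' x hx hx', h2, Matrix.mulVec_smul,
      smul_smul, smul_smul]
    refine congrArg (· • _) ?_
    rw [pow_add, mul_inv, div_eq_mul_inv]
    ring
  rw [rt_eq h0 h2, rt_eq h1 h3, div_mul_cancel₀ _ (pow_ne_zero k hd)]

theorem rk1 [M.Cpt] {S : Set ℕ} {s : ℕ → M.Fam (σ → ℂ)} (hA : A0 M) (hS : S.Infinite)
    (hT : ∀ a ∈ S, Tc A T a (s a))
    (hp : ∀ a ∈ S, ∀ b ∈ S, M.All fun e z => ∀ i j, s a e z i * s b e z j = s a e z j * s b e z i) :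
    ∃ m, 0 < m ∧ ∃ t, M.HSecC (A.pw m) t ∧ ∃ e ∈ M.C, ∃ z ∈ e.target, t e z ≠ 0 := by
  obtain ⟨a, ha⟩ := hS.nonempty
  obtain ⟨b, hb, hab⟩ := hS.exists_gt a
  obtain ⟨m, rfl⟩ := Nat.exists_eq_add_of_le hab.le
  have hm : 0 < m := by omega
  have hol : ∀ c ∈ S, M.All fun e z => ∀ i, HolN (fun w => s c e w i) z := fun c hc => (hT c hc).hol
  have fr : ∀ c ∈ S, M.All fun e z => ∀ i, (∃ᶠ w in 𝓝 z, s a e w i ≠ 0) →
      ∃ᶠ w in 𝓝 z, s c e w i ≠ 0 ∧ s a e w i ≠ 0 := fun c hc e he z hz i hi => by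
    obtain ⟨j, hj⟩ := bID n M σ _ 0 _ (hT c hc).tw e he z hz
    refine ((fm (hol c hc e he z hz j) (hol a ha e he z hz i) hj hi).and_eventually
      ((hp c hc a ha).ev he hz)).mono fun w k => ⟨fun l => ?_, k.1.2⟩
    have := k.2 i j
    rw [l, zero_mul] at this
    exact mul_ne_zero k.1.1 k.1.2 this.symm
  have rel : ∀ k, 0 < k → a + (k + m) ∈ S → ∃ c : ℂ, M.All fun e z => ∀ i,
      (∃ᶠ w in 𝓝 z, s a e w i ≠ 0) → ∃ᶠ w in 𝓝 z, ∀ᶠ v in 𝓝 w, s (a + m) e v i ^ (k + m) -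
        c * s (a + (k + m)) e v i ^ m * s a e v i ^ k = 0 := fun k hk hc => by
    let Φ : M.Fam ℂ := fun e z =>
      rt (s (a + m) e z) (s a e z) ^ (k + m) / rt (s (a + (k + m)) e z) (s a e z) ^ m
    have inv : M.Inv Φ := fun e he e' he' x hx hx' => by
      have hd := A.ne e he e' he' x hx hx'
      simp only [Φ]
      rw [lw (hT _ hb) (hT a ha) (hp _ hb a ha) e he e' he' x hx hx',
        lw (hT _ hc) (hT a ha) (hp _ hc a ha) e he e' he' x hx hx', mul_pow, mul_pow, ← pow_mul,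
        ← pow_mul, mul_comm m, mul_div_mul_right _ _ (pow_ne_zero _ hd)]
    have h1 : M.All fun e z => ∀ i, s (a + (k + m)) e z i ^ m * s a e z i ^ k ≠ 0 →
        M.ev Φ (e.symm z) = s (a + m) e z i ^ (k + m) /
          (s (a + (k + m)) e z i ^ m * s a e z i ^ k) := fun e he z hz i hi => by
      have i1 : s (a + (k + m)) e z i ≠ 0 := fun h => hi (by rw [h, zero_pow hm.ne', zero_mul])
      have i2 : s a e z i ≠ 0 := fun h => hi (by rw [h, zero_pow hk.ne', mul_zero])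
      have i3 : s a e z ≠ 0 := fun h => i2 (congrFun h i)
      rw [inv.rep e he z hz]
      simp only [Φ]
      rw [rt_eq i3 (eq_div (hp _ hb a ha e he z hz) i2),
        rt_eq i3 (eq_div (hp _ hc a ha e he z hz) i2), div_pow, div_pow, pow_add (s a e z i)]
      field_simp
    have h2 : M.All fun e z => ∀ i, HolN (fun w => s (a + m) e w i ^ (k + m)) z ∧
        HolN (fun w => s (a + (k + m)) e w i ^ m * s a e w i ^ k) z ∧
        ((∃ᶠ w in 𝓝 z, s a e w i ≠ 0) →
          ∃ᶠ w in 𝓝 z, s (a + (k + m)) e w i ^ m * s a e w i ^ k ≠ 0) := fun e he z hz i =>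
      ⟨(hol _ hb e he z hz i).mono fun _ l => l.fun_pow _,
        ((hol _ hc e he z hz i).and (hol a ha e he z hz i)).mono fun _ l =>
          (l.1.fun_pow _).fun_mul (l.2.fun_pow _), fun hi => (fr _ hc e he z hz i hi).mono
            fun _ l => mul_ne_zero (pow_ne_zero _ l.1) (pow_ne_zero _ l.2)⟩
    have h3 : MerM M (M.ev Φ) := fun e he z hz => by
      obtain ⟨i, hi⟩ := bID n M σ _ 0 _ (hT a ha).tw e he z hz
      obtain ⟨k1, k2, k3⟩ := h2 e he z hz i
      exact ⟨_, _, k1, k2, k3 hi, (h1.ev he hz).mono fun w l => l i⟩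
    obtain ⟨y, c, hy⟩ := hA _ h3
    refine ⟨c, fun e he z hz i hi => ?_⟩
    obtain ⟨k1, k2, k3⟩ := h2 e he z hz i
    refine ((merid h3 hy e he z hz).and_eventually ((dn k2 (k3 hi)).and
      (k1.eventually_nhds.and (k2.eventually_nhds.and (h1.ev he hz).eventually_nhds)))).mono
        fun w l => ?_
    simp only [mul_assoc c]
    refine can ((l.2.2.1.and l.2.2.2.1).mono fun v r => r.1.fun_sub (r.2.const_mul c))
      l.2.2.2.1 l.2.1 ((l.1.and l.2.2.2.2).mono fun v r hv => ?_)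
    rw [← r.1, r.2 i hv, div_mul_cancel₀ _ hv, sub_self]
  have loc : M.All fun e z => ∃ u : E n → ℂ, HolN u z ∧
      ∀ᶠ w in 𝓝 z, s (a + m) e w = u w • s a e w := by
    intro e he z hz
    obtain ⟨i, hi⟩ := bID n M σ _ 0 _ (hT a ha).tw e he z hz
    obtain ⟨r, hr, hU⟩ := Metric.isOpen_iff.1 e.open_target z hz
    have dd : ∀ c ∈ S, DifferentiableOn ℂ (fun w => s c e w i) (ball z r) := fun c hc w hw =>
      (hol c hc e he w (hU hw) i).self_of_nhds.differentiableWithinAt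
    obtain ⟨u, u1, u2⟩ := bLOC n (ball z r) z _ _ m isOpen_ball (mem_ball_self hr) (dd _ hb)
      (dd a ha) hi (Set.infinite_of_forall_exists_gt fun N => by
        obtain ⟨c, hc, hN⟩ := hS.exists_gt (a + (N + m))
        obtain ⟨k, rfl⟩ : ∃ k, c = a + (k + m) := ⟨c - a - m, by omega⟩
        obtain ⟨t, ht⟩ := rel k (by omega) hc
        obtain ⟨y, y1, y2⟩ := ((ht e he z hz i hi).and_eventually (ball_mem_nhds z hr)).exists
        refine ⟨k, ⟨fun w => t * s (a + (k + m)) e w i ^ m, ((dd _ hc).fun_pow m).const_mul t,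
          fun w hw => sub_eq_zero.1 ?_⟩, by omega⟩
        exact SV.H85.eq_zero_of_convex isOpen_ball (convex_ball z r) (((dd _ hb).fun_pow _).fun_sub
          ((((dd _ hc).fun_pow m).const_mul t).fun_mul ((dd a ha).fun_pow k))) y2 y1 hw)
    refine ⟨u, u1, (eventually_all.2 fun j => ?_).mono fun w l => funext l⟩
    refine (can (f := fun w => s (a + m) e w j - u w * s a e w j) (((hol _ hb e he z hz j).and
      (u1.and (hol a ha e he z hz j))).mono fun w l => l.1.fun_sub (l.2.1.fun_mul l.2.2))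
      (hol a ha e he z hz i) hi ((u2.and ((hp _ hb a ha).ev he hz)).mono fun w l hw => ?_)).mono
        fun w l => sub_eq_zero.1 l
    refine mul_right_cancel₀ hw ?_
    rw [sub_mul, ← l.2 i j, l.1, zero_mul]
    ring
  have nz : ∀ e ∈ M.C, ∀ x ∈ e.source, M.ev (s a) x ≠ 0 → s a e (e x) ≠ 0 := fun e he x hx h k =>
    h (zero_iff (hT a ha).tw _ (Mf.ch_mem x) e he x ((mTR n M).1 x).2 hx k)
  have loc' : M.All fun e z => ∀ u : E n → ℂ, (∀ᶠ w in 𝓝 z, s (a + m) e w = u w • s a e w) →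
      ∀ᶠ y in 𝓝 (e.symm z), y ∈ {x | M.ev (s a) x ≠ 0} →
        rt (s (a + m) e (e y)) (s a e (e y)) = u (e y) := fun e he z hz u hu => by
    refine (tr hz).2 ?_
    filter_upwards [hu, e.open_target.eventually_mem hz] with w w1 w2 w3
    have := nz e he _ (e.map_target w2) w3
    rw [e.right_inv w2] at this ⊢
    exact rt_eq this w1
  obtain ⟨t, t1, t2⟩ := KP.st_EXTD n M (A.pw m) {x | M.ev (s a) x ≠ 0}
    (fun e x => rt (s (a + m) e (e x)) (s a e (e x))) (fun x => by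
      obtain ⟨e, he, hs⟩ := M.cov x
      obtain ⟨i, hi⟩ := bID n M σ _ 0 _ (hT a ha).tw e he _ (e.map_source hs)
      rw [mem_closure_iff_frequently, ← e.left_inv hs, tr' (e.map_source hs)]
      refine (hi.and_eventually (e.open_target.eventually_mem (e.map_source hs))).mono
        fun w l k => l.1 ?_
      have := zero_iff (hT a ha).tw e he _ (Mf.ch_mem _) _ (e.map_target l.2) ((mTR n M).1 _).2 k
      rw [e.right_inv l.2] at this
      exact congrFun this i)
    (fun e he e' he' x hx hx' _ => lw (hT _ hb) (hT a ha) (hp _ hb a ha) e he e' he' x hx hx')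
    fun e he x hx => by
      obtain ⟨u, u1, u2⟩ := loc e he _ (e.map_source hx)
      have := loc' e he _ (e.map_source hx) u u2
      rw [e.left_inv hx] at this
      exact ⟨u, u1.eventually_nhds.mono fun w l => ((mHOL n u w).2.2 l).1, this⟩
  have t3 : M.All fun e z => ∃ u : E n → ℂ, HolN u z ∧ s (a + m) e z = u z • s a e z ∧
      t e =ᶠ[𝓝 z] u :=
    fun e he z hz => by
      obtain ⟨u, u1, u2⟩ := loc e he z hz
      have := t2 e he _ (e.map_target hz) u
      rw [e.right_inv hz] at this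
      exact ⟨u, u1, u2.self_of_nhds, this (u1.mono fun w l => l.continuousAt)
        (loc' e he z hz u u2)⟩
  refine ⟨m, hm, t, ⟨t1, fun e he z hz => ?_⟩, ?_⟩
  · obtain ⟨u, u1, -, u3⟩ := t3 e he z hz
    exact u1.self_of_nhds.congr_of_eventuallyEq u3
  · obtain ⟨e, he, z, hz, h⟩ := (hT _ hb).nz
    obtain ⟨u, -, u2, u3⟩ := t3 e he z hz
    exact ⟨e, he, z, hz, fun k => h (by rw [u2, ← u3.self_of_nhds, k, zero_smul])⟩

end FIN

theorem bFIN : St_FIN := by
  intro n M _ H L φ A hL hA h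
  have pw : ∀ b, M.Ov fun e e' x => (L b).c e e' x = A.c e e' x ^ b * (L 0).c e e' x :=
    fun b e he e' he' x hx hx' => by
      beta_reduce
      induction b with
      | zero => rw [pow_zero, one_mul]
      | succ b ih => rw [hL b e he e' he' x hx hx', ih, pow_succ, mul_right_comm]
  obtain ⟨τ, _, T, S, s, s1, s2, s3⟩ := FIN.crk (A := A)
    (T := fun e e' x => ((L 0).c e e' x)⁻¹ • La (M.J e e' x)) (h.mono fun b hb =>
      hb.imp fun V v => ⟨v.2.1, v.2.2, fun e he e' he' x hx hx' => by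
        beta_reduce
        rw [v.1.cmp e he e' he' x hx hx', ← Matrix.smul_mulVec, smul_smul, ← mul_inv,
          ← pw b e he e' he' x hx hx']
        rfl⟩)
  exact FIN.rk1 hA s1 s2 s3

end Pool.Agent.Lib.K3S
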