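import Pool.Agent.Lib.K3S.Blue

/-! The integrals of the regularised weights. -/

open Set MeasureTheory

namespace Pool.Agent.Lib.K3S

theorem bKLT : St_KLT := by
  intro X I _ _ μ _ σ κ B C hκ hσ hC
  have K0 : 0 < ∑ i, κ i + 1 := by linarith [Finset.sum_nonneg fun i (_ : i ∈ Finset.univ) => hκ i]
  refine ⟨2, (2 * (∑ i, κ i + 1))⁻¹, max (μ.real univ * Real.exp (2 * ∑ i, κ i * Real.log (B + 1)))
    (μ.real univ + ∑ _i : I, C), one_lt_two, by positivity, fun d hd => ⟨le_max_of_le_left ?_,
      le_max_of_le_right ?_⟩⟩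
  · rw [← smul_eq_mul, ← integral_const]
    refine integral_mono_of_nonneg (ae_of_all _ fun x => (Real.exp_pos _).le) (integrable_const _)
      (ae_of_all _ fun x => Real.exp_le_exp.2 (mul_le_mul_of_nonneg_left
        (Finset.sum_le_sum fun i _ => mul_le_mul_of_nonneg_left ?_ (hκ i)) zero_le_two))
    exact Real.log_le_log (by linarith [((hσ i).2 x).1, hd.1]) (by linarith [((hσ i).2 x).2, hd.2])
  · have p : ∀ i x, 0 < σ i x + d := fun i x => by linarith [((hσ i).2 x).1, hd.1]
    have it : ∀ i, Integrable (fun x => (σ i x + d) ^ (-(1 / 2 : ℝ))) μ := fun i =>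
      .of_bound (((hσ i).1.add_const d).pow_const _).aestronglyMeasurable (d ^ (-(1 / 2 : ℝ)))
        (ae_of_all _ fun x => by
          rw [Real.norm_of_nonneg (Real.rpow_pos_of_pos (p i x) _).le]
          exact Real.rpow_le_rpow_of_nonpos hd.1 (by linarith [((hσ i).2 x).1]) (by norm_num))
    have i2 := integrable_finsetSum Finset.univ fun i _ => it i
    refine (integral_mono_of_nonneg (g := fun x => 1 + ∑ i, (σ i x + d) ^ (-(1 / 2 : ℝ)))
      (ae_of_all _ fun x => (Real.exp_pos _).le) ((integrable_const _).add i2)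
      (ae_of_all _ fun x => ?_)).trans ?_
    · have n : ∀ i, 0 ≤ (σ i x + d) ^ (-(1 / 2 : ℝ)) := fun i => (Real.rpow_pos_of_pos (p i x) _).le
      have s := Finset.sum_nonneg fun i (_ : i ∈ Finset.univ) => n i
      have l0 : 0 ≤ Real.log (1 + ∑ i, (σ i x + d) ^ (-(1 / 2 : ℝ))) := Real.log_nonneg (by linarith)
      have l1 : ∀ i, -(κ i * DX.fl (σ i) d x) ≤
          κ i * (2 * Real.log (1 + ∑ i, (σ i x + d) ^ (-(1 / 2 : ℝ)))) := fun i => by
        have a := Real.log_le_log (Real.rpow_pos_of_pos (p i x) (-(1 / 2 : ℝ)))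
          ((Finset.single_le_sum (fun i _ => n i) (Finset.mem_univ i)).trans
            (le_add_of_nonneg_left zero_le_one))
        rw [Real.log_rpow (p i x)] at a
        rw [← mul_neg]
        exact mul_le_mul_of_nonneg_left (by rw [DX.fl]; linarith) (hκ i)
      have l2 := Finset.sum_le_sum fun i (_ : i ∈ Finset.univ) => l1 i
      rw [Finset.sum_neg_distrib, ← Finset.sum_mul] at l2
      refine (Real.le_log_iff_exp_le (by linarith)).1 ?_
      rw [← mul_neg, inv_mul_le_iff₀ (by positivity)]
      linarith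
    · rw [integral_add (integrable_const _) i2, integral_const, smul_eq_mul, mul_one,
        integral_finsetSum _ fun i _ => it i]
      exact add_le_add le_rfl (Finset.sum_le_sum fun i _ => hC i d hd.1)

end Pool.Agent.Lib.K3S
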