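import Pool.Agent.Lib.K3S.Blue
import Pool.Agent.Lib.K3E.B_IDX
import Pool.Agent.Lib.HLK.All0

/-! Row RS: the refined atlas. -/

open scoped Topology Matrix
open Set Filter

noncomputable section

namespace Pool.Agent.Lib.K3S

open Pool.Agent.Lib.SV (E)
open Pool.Agent.Lib.HS32 Pool.Agent.Lib.HLK
open Pool.Agent.Lib.K3E (lk)
open Pool.Agent.Lib.KP.T6 (rs restr)

namespace RS

variable {n : ℕ} {M : Mf n} {ι : Type} {U : ι → Set M.X} (ho : ∀ i, IsOpen (U i))
  (hc : ∀ x, ∃ i, x ∈ U i)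

theorem tgt {e e' : M.Ch} {z : E n} (hz : z ∈ e.target) (h : e.symm z ∈ e'.source)
    (q : (e' : M.X → E n) = e) : z ∈ e'.target := by
  have := e'.map_source h
  rwa [q, e.right_inv hz] at this

theorem ext {F : Type} (law : Mat n → F → F → Prop) (one : ∀ a b, law 1 a b → a = b) {W : M.Fam F}
    (hW : (rs M ho hc).Ov fun e e' x => law (M.J e e' x) (W e (e x)) (W e' (e' x))) :
    ∃ W' : M.Fam F, (M.Ov fun e e' x => law (M.J e e' x) (W' e (e x)) (W' e' (e' x))) ∧
      (M.All fun e z => ∃ e1 ∈ (rs M ho hc).C, z ∈ e1.target ∧ W' e =ᶠ[𝓝 z] W e1) ∧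
      (∀ e z, ∃ e1, W' e z = W e1 z) ∧ (rs M ho hc).All fun e z => W' e z = W e z := by
  replace hW : M.OvOn {e | e ∈ M.C ∧ ∃ i, e.source ⊆ U i}
    fun e e' x => law (M.J e e' x) (W e (e x)) (W e' (e' x)) := hW
  choose! ρ r1 r2 r3 r4 using fun (e : M.Ch) (he : e ∈ M.C) (z : E n) (hz : z ∈ e.target) =>
    restr M ho hc he (e.map_target hz)
  have key : ∀ e ∈ M.C, ∀ z ∈ e.target, ∀ e1 : M.Ch, (e1 ∈ M.C ∧ ∃ i, e1.source ⊆ U i) →
      e.symm z ∈ e1.source →
      (e1 : M.X → E n) = e → (e1.symm : E n → M.X) = e.symm → W (ρ e z) z = W e1 z :=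
    fun e he z hz e1 h1 h2 h3 h4 => one _ _ (by
      have := hW _ (r1 e he z hz) e1 h1 _ (r2 e he z hz) h2
      have j : M.J (ρ e z) e1 (e.symm z) = 1 := by
        rw [← (mTR n M).2.2.1 e he _ (e.map_target hz)]
        simp only [Mf.J, r3 e he z hz, h3, h4]
      beta_reduce at this
      rwa [j, r3 e he z hz, h3, e.right_inv hz] at this)
  refine ⟨fun e z => W (ρ e z) z, fun e he e' he' x hx hx' => ?_, fun e he z hz =>
    ⟨ρ e z, r1 e he z hz, tgt hz (r2 e he z hz) (r3 e he z hz), ?_⟩, fun e z => ⟨_, rfl⟩,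
    fun e he z hz => key e he.1 z hz e he (e.map_target hz) rfl rfl⟩
  · have a := e.map_source hx
    have b := e'.map_source hx'
    have := hW _ (r1 e he _ a) _ (r1 e' he' _ b) x (by simpa [e.left_inv hx] using r2 e he _ a)
      (by simpa [e'.left_inv hx'] using r2 e' he' _ b)
    simpa only [Mf.J, r3 e he _ a, r3 e' he' _ b, r4 e' he' _ b] using this
  · filter_upwards [(e.isOpen_inter_preimage_symm (ρ e z).open_source).mem_nhds
      ⟨hz, r2 e he z hz⟩] with w hw
    exact key e he w hw.1 _ (r1 e he z hz) hw.2 (r3 e he z hz) (r4 e he z hz)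

open Classical in
theorem rk (H : M.Fam (Mat n)) (q : ℕ) :
    Module.finrank ℂ (IDX.hl (lk (M := rs M ho hc) H 1) (· = q)) =
      Module.finrank ℂ (IDX.hl (lk H 1) (· = q)) := by
  have tr : ∀ (N : Mf n) (b : Bun N (Fs n)) (W : N.Fam (Fs n → ℂ)), b.Sec W → Hol W → Deg q W →
      (fun e z => if e ∈ N.C ∧ z ∈ e.target then W e z else 0) ∈ IDX.hl b (· = q) :=
    fun N b W w1 w2 w3 => by
      have p : N.All fun e z => (if e ∈ N.C ∧ z ∈ e.target then W e z else 0) = W e z :=
        fun e he z hz => if_pos ⟨he, hz⟩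
      refine ⟨⟨fun e he z hz => (w1.sm e he z hz).congr_of_eventuallyEq (p.ev he hz),
        fun e he e' he' x hx hx' => ?_⟩, fun e he z hz i => ?_, fun e z A h => ?_⟩
      · beta_reduce
        rw [p e he _ (e.map_source hx), p e' he' _ (e'.map_source hx')]
        exact w1.cmp e he e' he' x hx hx'
      · filter_upwards [w2 e he z hz i, (p.ev he hz).eventually_nhds] with w k1 k2
        exact k1.congr_of_eventuallyEq (k2.mono fun y hy => congrFun hy i)
      · by_cases c : e ∈ N.C ∧ z ∈ e.target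
        · exact ⟨c.1, c.2, by_contra fun d => h ((congrFun (p e c.1 z c.2) A).trans (w3 e z A d))⟩
        · exact (h (congrFun (if_neg c) A)).elim
  let r : IDX.hl (lk H 1) (· = q) →ₗ[ℂ] IDX.hl (lk (M := rs M ho hc) H 1) (· = q) :=
    { toFun := fun W => ⟨_, tr (rs M ho hc) _ W.1 ⟨fun e he => W.2.1.sm e he.1,
        fun e he e' he' => W.2.1.cmp e he.1 e' he'.1⟩ (fun e he => W.2.2.1 e he.1)
        fun e z A d => by_contra fun c => d (W.2.2.2 e z A c).2.2⟩
      map_add' := fun V W => Subtype.ext (funext fun e => funext fun z => by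
        change (if _ then V.1 e z + W.1 e z else 0) =
          (if _ then V.1 e z else 0) + if _ then W.1 e z else 0
        rw [ite_add_ite, add_zero])
      map_smul' := fun a W => Subtype.ext (funext fun e => funext fun z => by
        change (if _ then a • W.1 e z else 0) = a • if _ then W.1 e z else 0
        rw [smul_ite, smul_zero]) }
  refine (LinearEquiv.ofBijective r ⟨(injective_iff_map_eq_zero _).2 fun W h => ?_,
    fun W => ?_⟩).finrank_eq.symm
  · refine Subtype.ext (funext fun e => funext fun z => funext fun A => by_contra fun c => ?_)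
    obtain ⟨he, hz, -⟩ := W.2.2.2 e z A c
    obtain ⟨e', h1, h2, h3, h4⟩ := restr M ho hc he (e.map_target hz)
    have e1 := W.2.1.cmp e he e' h1.1 _ (e.map_target hz) h2
    have e2 : W.1 e' (e' (e.symm z)) = 0 :=
      (if_pos ⟨h1, e'.map_source h2⟩).symm.trans (congrFun (congrFun (congrArg Subtype.val h) e') _)
    beta_reduce at e1
    rw [e.right_inv hz, e2, Matrix.mulVec_zero] at e1
    exact c (congrFun e1 A)
  · obtain ⟨W', w1, w2, w3, w4⟩ := ext ho hc (W := W.1)
      (fun J a b => a = ((J.det ^ 1 * 1)⁻¹ • La J) *ᵥ b)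
      (fun a b h => by simpa [(aFK2 n).1] using h) W.2.1.cmp
    refine ⟨⟨_, tr M _ W' ⟨fun e he z hz => ?_, w1⟩ (fun e he z hz i => ?_) fun e z A d => ?_⟩,
      Subtype.ext (funext fun e => funext fun z => ?_)⟩
    · obtain ⟨e1, k1, k2, k3⟩ := w2 e he z hz
      exact (W.2.1.sm e1 k1 z k2).congr_of_eventuallyEq k3
    · obtain ⟨e1, k1, k2, k3⟩ := w2 e he z hz
      filter_upwards [W.2.2.1 e1 k1 z k2 i, k3.eventually_nhds] with w a b
      exact a.congr_of_eventuallyEq (b.mono fun y hy => congrFun hy i)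
    · obtain ⟨e1, k⟩ := w3 e z
      rw [k]
      exact by_contra fun c => d (W.2.2.2 e1 z A c).2.2
    · by_cases c : e ∈ (rs M ho hc).C ∧ z ∈ e.target
      · exact (if_pos c).trans ((if_pos ⟨c.1.1, c.2⟩).trans (w4 e c.1 z c.2))
      · exact (if_neg c).trans (funext fun A => by_contra fun d =>
          c ⟨(W.2.2.2 e z A (Ne.symm d)).1, (W.2.2.2 e z A (Ne.symm d)).2.1⟩)

end RS

theorem bRS : St_RS := fun n M ι U ho hc => by
  refine ⟨fun H => ?_, fun h f hf => h f fun e he z hz => ?_, fun m t ht ⟨e, he, z, hz, h⟩ => ?_⟩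
  · simp only [K3E.chi, K3E.IDX.rk]
    exact Finset.sum_congr rfl fun q _ => by rw [RS.rk ho hc H q]
  · obtain ⟨e', h1, h2, h3, h4⟩ := restr M ho hc he (e.map_target hz)
    obtain ⟨a, b, k1, k2, k3, k4⟩ := hf e' h1 z (RS.tgt hz h2 h3)
    exact ⟨a, b, k1, k2, k3, k4.mono fun w hw hb => (congrArg f (congrFun h4 w)).symm.trans (hw hb)⟩
  · obtain ⟨t', w1, w2, -, w4⟩ := RS.ext ho hc (W := t) (fun J a b => b = a * J.det ^ m)
      (fun a b h => by simpa using h.symm) ht.cmp
    refine ⟨t', ⟨⟨fun e he z hz => ?_, w1⟩, fun e he z hz => ?_⟩, e, he.1, z, hz,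
      (w4 e he z hz).trans_ne h⟩
    · obtain ⟨e1, k1, k2, k3⟩ := w2 e he z hz
      exact (ht.sm e1 k1 z k2).congr_of_eventuallyEq k3
    · obtain ⟨e1, k1, k2, k3⟩ := w2 e he z hz
      exact (ht.hol e1 k1 z k2).congr_of_eventuallyEq k3

end Pool.Agent.Lib.K3S
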