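import Pool.Agent.Lib.IDX.All
import Pool.Agent.Lib.ZE.All2
import Pool.Agent.Lib.K3E.B_KAN
import Pool.Agent.Lib.K3E.B_FRM
import Pool.Agent.Lib.K3E.B_STAR
import Pool.Agent.Lib.K3E.B_ALT
import Pool.Agent.Lib.K3E.B_MER
import Pool.Agent.Lib.K3S.B_MS
import Pool.Agent.Lib.K3S.B_KLT
import Pool.Agent.Lib.K3S.B_ORT
import Pool.Agent.Lib.K3S.B_RS
import Pool.Agent.Lib.K3S.B_TW
import Pool.Agent.Lib.K3S.B_SG
import Pool.Agent.Lib.K3S.B_BRG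
import Pool.Agent.Lib.K3S.B_FIN

/-! Project k3s: assembly. -/

namespace Pool.Agent.Lib.K3S

theorem aDT : St_DT := bDT bSG (bORT bSG) bKLT

theorem aTW : St_TW := bTW K3E.bKAN

theorem aFRM : K3E.St_FRM := K3E.bFRM HLK.aFK3 (K3E.bSTAR HLK.aFK1 HLK.aFK2) K3E.bALT

theorem aTOP : St_TOP :=
  bTOP (bMS HLK.aHL IDX.aIDX ZE.ze2 aDT aTW bFIN bSG) bRS bBRG aFRM K3E.bMER

end Pool.Agent.Lib.K3S
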