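import Pool.Agent.Lib.K3S.Blue
import Pool.Agent.Lib.ZE.O_TOP

/-! Row BRG: from the data of the statement to the data on the manifold layer. -/

open scoped Classical Topology ContDiff ComplexOrder Matrix ENNReal Manifold
open Set MeasureTheory Complex Metric Filter

noncomputable section

namespace Pool.Agent.Lib.K3S

open Pool.Agent.Lib.SV (E)
open Pool.Agent.Lib.HS32 Pool.Agent.Lib.HS.BBR Pool.Agent.Lib.RB.R32 Pool.Agent.Lib.KP.T6
open Pool.Agent.Lib.HS (inChart)
open Pool.Agent.Lib.GH (Kaehler)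
open Pool.Agent.Lib.ZK47 (Glue)
open Pool.Agent.Lib.ZK47.Br

theorem BRG.den {I : Type} [Fintype I] {a : I → ℚ} (ha : ∀ k, 0 ≤ a k) :
    ∃ c : ℕ, 0 < c ∧ ∃ a' : I → ℕ, ∀ k, (a' k : ℝ) / c = a k := by
  have h0 : 0 < ∏ k, (a k).den := Finset.prod_pos fun k _ => (a k).den_pos
  choose d hd using fun k => Finset.dvd_prod_of_mem (fun k => (a k).den) (Finset.mem_univ k)
  refine ⟨_, h0, fun k => (a k).num.toNat * d k, fun k => ?_⟩
  have h1 : (((a k).num.toNat : ℕ) : ℝ) = ((a k).num : ℝ) := by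
    exact_mod_cast Int.toNat_of_nonneg (Rat.num_nonneg.2 (ha k))
  have h2 : (d k : ℝ) ≠ 0 := Nat.cast_ne_zero.2 fun h => by simp [hd k, h] at h0
  rw [hd k, Nat.cast_mul, Nat.cast_mul, h1, mul_div_mul_right _ _ h2, Rat.cast_def]

theorem bBRG : St_BRG := by
  intro n X ι I _ _ _ _ _ _ _ G w U f u a hC hn hG hw ha hN
  obtain ⟨c, c0, a', ha'⟩ := BRG.den ha
  set b : I → ℝ := fun k => -(a k : ℝ) with hb
  have opn := hC.opn
  have cov := hC.cov
  have hol := hC.hol
  have unit := hC.unit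
  have nf : ∀ k j, ∀ x ∈ U j, ∃ᶠ y in 𝓝 x, f k j y ≠ 0 := fun k j x hx =>
    ZE.TOP.frq_of fun h => (hC.deg k j x hx h).1
  let M : Mf n := rs (mf n X) (U := U) opn cov
  have cpt : M.Cpt := ⟨‹_›, ‹_›, ‹_›⟩
  have hc : ∀ x : X, chartAt (E n) x ∈ (mf n X).C := HW.ch_mem
  obtain ⟨r, r1, r2, r3, r4⟩ : ∃ r : X → OpenPartialHomeomorph X (E n), (∀ x, r x ∈ M.C) ∧
      (∀ x, x ∈ (r x).source) ∧ (∀ x, (r x : X → E n) = chartAt (E n) x) ∧
      ∀ x, ((r x).symm : E n → X) = (chartAt (E n) x).symm := by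
    choose r r1 r2 r3 r4 using fun x : X =>
      restr (mf n X) (U := U) opn cov (hc x) (mem_chart_source (E n) x)
    exact ⟨r, r1, r2, r3, r4⟩
  have hι : ∀ e : OpenPartialHomeomorph X (E n), ∃ i, e ∈ M.C → e.source ⊆ U i := fun e => by
    by_cases he : e ∈ M.C
    · exact he.2.imp fun _ hi _ => hi
    · obtain ⟨x⟩ : Nonempty X := inferInstance
      exact (cov x).imp fun _ _ h => absurd h he
  choose i hi using hι
  choose L L1 L2 using fun k => ex_co opn cov hi (hol k) (unit k)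
    (coc opn (unit k) (nf k))
  choose φ hφ using fun k => KP.st_WT n M (L k)
  have g1 := HW.kae hG
  let H : M.Fam (Mat n) := fam (X := X) G
  have kH : M.Kae H := ⟨⟨⟨⟨fun e he => g1.sm e he.1, fun e he e' he' => g1.cmp e he.1 e' he'.1⟩,
    fun e he => g1.herm e he.1⟩, fun e he => g1.cl e he.1⟩, fun e he => g1.pos e he.1⟩
  have fr : ∀ x, H (r x) = inChart G x := fun x => by
    funext z
    change (jm (chartAt (E n) ((r x).symm z) ∘ (r x).symm) z)ᴴ * G ((r x).symm z) *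
      jm (chartAt (E n) ((r x).symm z) ∘ (r x).symm) z = _
    rw [r4]
    rfl
  have w0 := HW.kae hw.1
  have w1 : (mf n X).Clo (fam w) := (w0.toClo.sub g1.toClo).congr fun e _ z _ => by
    simp only [Pi.sub_apply, fam, Pi.add_apply, Matrix.mul_add, Matrix.add_mul, add_sub_cancel_left]
  let β : M.Fam (Mat n) := fam (X := X) w
  have cβ : M.Clo β := ⟨⟨⟨fun e he => w1.sm e he.1, fun e he e' he' => w1.cmp e he.1 e' he'.1⟩,
    fun e he => w1.herm e he.1⟩, fun e he => w1.cl e he.1⟩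
  have nβ : M.Le 0 β := DM.K63.le0.2 fun e _ z _ => (hw.2.1 _).conjTranspose_mul_mul_same _
  have e0 : ∀ x : X, β (r x) (r x x) = w x := fun x => by
    have h0 : jm (chartAt (E n) x ∘ (chartAt (E n) x).symm) (chartAt (E n) x x) = 1 :=
      (mTR n (mf n X)).2.2.1 _ (hc x) x (mem_chart_source (M := X) (E n) x)
    change (jm (chartAt (E n) ((r x).symm (r x x)) ∘ (r x).symm) (r x x))ᴴ *
      w ((r x).symm (r x x)) * jm (chartAt (E n) ((r x).symm (r x x)) ∘ (r x).symm) (r x x) = _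
    rw [(r x).left_inv (r2 x), r3, r4, h0, Matrix.conjTranspose_one, Matrix.one_mul, Matrix.mul_one]
  let B : M.Fam (Mat n) := fun e z => ∑ k, b k • M.hw (φ k) e z
  have cB : M.Clo B := by
    have : ∀ s : Finset I, M.Clo fun e z => ∑ k ∈ s, b k • M.hw (φ k) e z := fun s => by
      induction s using Finset.induction_on with
      | empty => exact Mf.clo_zero.congr fun _ _ _ _ => by simp
      | insert a s ha ih =>
        exact (((hφ a).clo.smul (b a)).add ih).congr fun _ _ _ _ => by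
          simp only [Finset.sum_insert ha, Pi.add_apply, Pi.smul_apply]
    exact this _
  have key : ∀ p : ι → X → ℝ, Glue U u b (fun i x => p i x) → (∀ j, ∀ x ∈ U j,
      ContDiffAt ℝ ∞ (p j ∘ (chartAt (E n) x).symm) (chartAt (E n) x x)) →
      ∃ g : X → ℝ, M.Sm g ∧ ∀ e : OpenPartialHomeomorph X (E n), e ∈ M.C → ∀ j, ∀ z ∈ e.target,
        e.symm z ∈ U j → ContDiffAt ℝ ∞ (p j ∘ e.symm) z ∧
          hess (fun w => (p j (e.symm w) : ℂ)) z = B e z + M.hs g e z := by
    intro p p1 p2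
    have gl : ∀ a a', ∀ x ∈ U a ∩ U a',
        p a x = p a' x + ∑ k, b k * Real.log (normSq (u k a a' x)) := fun a a' x hx =>
      EReal.coe_eq_coe_iff.1 ((p1 a a' x hx).trans (EReal.coe_add _ _).symm)
    have sp : ∀ e : OpenPartialHomeomorph X (E n), e ∈ M.C → ∀ j, ∀ z ∈ e.target,
        e.symm z ∈ U j → ContDiffAt ℝ ∞ (p j ∘ e.symm) z := fun e he j z hz hj => by
      have : ContDiffAt ℝ ∞ (p j ∘ e.symm) (e (e.symm z)) :=
        ((mTR n (mf n X)).2.2.2.1 ℝ (p j)).2.1 _ (hc (e.symm z)) e he.1 _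
          (mem_chart_source (M := X) (E n) _) (e.map_target hz) (p2 j _ hj)
      rwa [e.right_inv hz] at this
    let Φ : M.Fam ℝ := fun (e : OpenPartialHomeomorph X (E n)) z =>
      p (i e) (e.symm z) - ∑ k, b k * φ k e z
    have iv : M.Inv Φ := by
      intro (e : OpenPartialHomeomorph X (E n)) he (e' : OpenPartialHomeomorph X (E n)) he' (x : X)
        hx hx'
      have a1 : ∀ k, φ k e' (e' x) = φ k e (e x) + Real.log (normSq (u k (i e') (i e) x)) :=
        fun k => L1 k e e' x ▸ (hφ k).cmp e he e' he' x hx hx'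
      change p (i e') (e'.symm (e' x)) - ∑ k, b k * φ k e' (e' x) =
        p (i e) (e.symm (e x)) - ∑ k, b k * φ k e (e x)
      simp only [e.left_inv hx, e'.left_inv hx', a1, mul_add, Finset.sum_add_distrib]
      rw [gl (i e') (i e) x ⟨hi e' he' hx', hi e he hx⟩]
      ring
    have sg : M.Sm (M.ev Φ) := iv.sm fun e he z hz =>
      (sp e he _ z hz (hi e he (e.map_target hz))).sub
        (ContDiffAt.sum fun k _ => contDiffAt_const.mul ((hφ k).sm e he z hz))
    refine ⟨M.ev Φ, sg, fun e he j z hz hj => ⟨sp e he j z hz hj, ?_⟩⟩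
    have ev : ∀ᶠ w in 𝓝 z, w ∈ e.target ∧ e.symm w ∈ U j :=
      (e.isOpen_inter_preimage_symm (opn j)).mem_nhds ⟨hz, hj⟩
    have hu : ∀ k, ContDiffAt ℝ ∞ (fun w => Real.log (normSq (u k j (i e) (e.symm w)))) z ∧
        hess (fun w => (Real.log (normSq (u k j (i e) (e.symm w))) : ℝ)) z = 0 := fun k => by
      have h1 : HolN (fun w => u k j (i e) (e.symm w)) z := ev.mono fun w hw =>
        hol_chart (fun y => (he.1 y).2) hw.1 (unit k _ _ _ ⟨hw.2, hi e he (e.map_target hw.1)⟩).1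
      obtain ⟨l1, l2, -⟩ := ((mHOL n _ _).2.2 h1).2.2.2
        (unit k _ _ _ ⟨hj, hi e he (e.map_target hz)⟩).2.1
      exact ⟨l1, l2⟩
    have e1 : (fun w => (p j (e.symm w) : ℂ)) =ᶠ[𝓝 z] fun w =>
        ((∑ k, b k * φ k e w : ℝ) : ℂ) + M.lc (M.ev Φ) e w +
          ((∑ k, b k * Real.log (normSq (u k j (i e) (e.symm w))) : ℝ) : ℂ) := by
      filter_upwards [ev] with w hw
      have a1 : M.lc (M.ev Φ) e w = ((p (i e) (e.symm w) - ∑ k, b k * φ k e w : ℝ) : ℂ) :=
        congrArg ofReal (iv.rep e he w hw.1)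
      rw [gl j (i e) _ ⟨hw.2, hi e he (e.map_target hw.1)⟩, a1]
      push_cast
      ring
    have s1 := cd_ofReal (ContDiffAt.sum (s := Finset.univ) fun k _ =>
      (contDiffAt_const (c := b k)).mul ((hφ k).sm e he z hz))
    rw [hess_congr e1, hess_add (s1.add (sg.lc e he z hz))
      (cd_ofReal (ContDiffAt.sum fun k _ => contDiffAt_const.mul (hu k).1)),
      hess_add s1 (sg.lc e he z hz), hsum fun k => (hφ k).sm e he z hz, hsum fun k => (hu k).1]
    simp only [(hu _).2, smul_zero, Finset.sum_const_zero, add_zero]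
    rfl
  have sl : ∀ e ∈ M.C, ∀ z ∈ e.target, ContDiffAt ℝ ∞ (fun w => Real.log (H e w).det.re) z :=
    fun e he z hz => ((mCOF n _ _ (kH.sm e he z hz)).2.2.2.2.2 (Mf.AllOn.ev kH.pos he hz)).2.1
  have cR := (mHES n M).2.2.2.2.2.2.2.2.1 _ kH.toMet
  have nw : ∀ ε > (0 : ℝ), ∃ (ψ : M.X → ℝ) (C : ℝ), 0 ≤ C ∧ M.Sm ψ ∧
      M.Le 0 (B - M.ric H + ε • β + M.hs ψ) ∧ M.Le (B - M.ric H + ε • β + M.hs ψ) (C • β) := by
    intro ε hε
    obtain ⟨p, C, p1, p2⟩ := hN ε hε
    obtain ⟨g, sg, hg⟩ := key p p1 fun j x hx => (p2 j x hx).1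
    have hf : M.Clo (B - M.ric H + ε • β + M.hs g) :=
      ((cB.sub cR).add (cβ.smul ε)).add ((mHES n M).1 g sg)
    have ctr : ∀ (x : X) (y : E n), 0 ≤ nq ((B - M.ric H + ε • β + M.hs g) (r x) (r x x)) y ∧
        nq ((B - M.ric H + ε • β + M.hs g) (r x) (r x x)) y ≤ (C + ε) * nq (w x) y := fun x y => by
      have hz := (r x).map_source (r2 x)
      obtain ⟨j, hj⟩ := cov x
      obtain ⟨s1, s2⟩ := hg _ (r1 x) j _ hz (by rwa [(r x).left_inv (r2 x)])
      have h1 := (p2 j x hj).2 y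
      rw [← fr, ← r3, ← r4] at h1
      have h3 : hess (fun w => ((p j ((r x).symm w) + Real.log (H (r x) w).det.re : ℝ) : ℂ))
          (r x x) = B (r x) (r x x) + M.hs g (r x) (r x x) - M.ric H (r x) (r x x) := by
        simp only [ofReal_add]
        refine (hess_add (cd_ofReal s1) (cd_ofReal (sl _ (r1 x) _ hz))).trans ?_
        rw [Mf.ric, sub_neg_eq_add, ← s2]
        rfl
      have h4 := (HW.levi_eq (s1.add (sl _ (r1 x) _ hz)) y).trans (congrArg (nq · y) h3)
      have h5 : (B - M.ric H + ε • β + M.hs g) (r x) (r x x) =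
          ε • w x + (B (r x) (r x x) + M.hs g (r x) (r x x) - M.ric H (r x) (r x x)) := by
        simp only [Pi.add_apply, Pi.sub_apply, Pi.smul_apply, e0]
        abel
      have h7 := h1.1.trans_eq h4
      have h8 := h4.symm.trans_le h1.2
      rw [nq] at h7 h8
      rw [h5, nq, nq, Matrix.add_mulVec, dotProduct_add, add_re, Matrix.smul_mulVec,
        dotProduct_smul, smul_re, smul_eq_mul]
      constructor <;> linarith
    refine ⟨g, max C 0 + ε, by positivity, sg,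
      ZE.TOP.le_ctr hf.toForm fun x => ⟨r x, r1 x, r2 x, fun y => (ctr x y).1⟩,
      Mf.le_iff_sub.2 (ZE.TOP.le_ctr ((cβ.toForm.smul _).sub hf.toForm) fun x =>
        ⟨r x, r1 x, r2 x, fun y => ?_⟩)⟩
    have h1 := (ctr x y).2
    have h2 : 0 ≤ nq (w x) y := (Complex.nonneg_iff.1 ((hw.2.1 x).dotProduct_mulVec_nonneg y)).1
    have h3 := mul_le_mul_of_nonneg_right (add_le_add_left (le_max_left C 0) ε) h2
    change 0 ≤ nq ((max C 0 + ε) • β (r x) (r x x) -
      (B - M.ric H + ε • β + M.hs g) (r x) (r x x)) y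
    rw [e0, nq, Matrix.sub_mulVec,
      dotProduct_sub, sub_re, Matrix.smul_mulVec, dotProduct_smul, smul_re, smul_eq_mul]
    rw [nq, nq] at h1
    rw [nq] at h3
    linarith
  have eq : -M.ric H - ∑ k, ((a' k : ℝ) / c) • M.hw (φ k) = B - M.ric H := by
    funext e z
    simp only [B, hb, ha', Pi.sub_apply, Pi.neg_apply, Finset.sum_apply, Pi.smul_apply, neg_smul,
      Finset.sum_neg_distrib]
    abel
  refine ⟨{
      H := H, β := β, L := L, f := _, φ := φ, a := a', c := c, pos := hn, c0 := c0, kae := kH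
      cβ := cβ, nβ := nβ, hol := L2, wt := hφ
      big := let ⟨x, hx⟩ := hw.2.2
        ⟨r x, r1 x, r x x, (r x).map_source (r2 x), (e0 x).symm ▸ hx⟩
      deg := fun k (x : X) => ⟨r x, r1 x, r2 x, fun h0 => ?_⟩
      nef := eq ▸ nw }, rfl⟩
  have := hC.deg k _ x (hi _ (r1 x) (r2 x))
    ((congrArg (f k (i (r x))) ((r x).left_inv (r2 x))).symm.trans h0)
  rw [EX.dAt, ← r3, ← r4, ← e0] at this
  exact this

end Pool.Agent.Lib.K3S
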