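import Pool.Agent.Lib.K3S.SDefs
import Pool.Agent.Lib.K3E.Blue
import Pool.Agent.Lib.IDX.Blue
import Pool.Agent.Lib.ZE.Blue
import Pool.Agent.Lib.KP.B_BRG

/-! Project k3s: non-vanishing for resolutions of minimal models. Blueprint. -/

open scoped Classical Topology ContDiff ComplexOrder Matrix Manifold
open Set MeasureTheory Filter

set_option linter.unusedVariables false

noncomputable section

namespace Pool.Agent.Lib.K3S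

open Pool.Agent.Lib.SV (E Pluri)
open Pool.Agent.Lib.HS32 Pool.Agent.Lib.HLK Pool.Agent.Lib.GH
open Pool.Agent.Lib.K3E (Forms Mero chi A0)
open Pool.Agent.Lib.IDX (Nx Can)
open Pool.Agent.Lib.KP.T6 (rs)

/-- The theorem. -/
def St_TOP : Prop := ∀ (n : ℕ) (X ι I : Type) [TopologicalSpace X] [ChartedSpace (E n) X]
  [IsManifold 𝓘(ℂ, E n) ω X] [CompactSpace X] [T2Space X] [ConnectedSpace X] [Fintype I]
  (G β : X → Mat n) (U : ι → Set X) (f : I → ι → X → ℂ) (u : I → ι → ι → X → ℂ) (a : I → ℚ),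
  Kaehler G → Semi n G β → Ctr n β U f u → (∀ k, 0 ≤ a k) → NefW n G β U u (fun k => -a k) →
  ∑ p ∈ Finset.range (n + 1), (-1 : ℤ) ^ p * Module.finrank ℂ (Forms n X p) ≠ 0 →
  (∀ g : X → ℂ, Mero n g → ∃ y c, ∀ᶠ x in 𝓝 y, g x = c) →
  ∃ m, 0 < m ∧ ∃ s ∈ Pluri n X m, s ≠ 0

/-- The data on the manifold layer. -/
structure Dk {n : ℕ} (M : Mf n) (I : Type) [Fintype I] where
  H : M.Fam (Mat n)
  β : M.Fam (Mat n)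
  L : I → M.Co
  f : I → M.Fam ℂ
  φ : I → M.Fam ℝ
  a : I → ℕ
  c : ℕ
  pos : 0 < n
  c0 : 0 < c
  kae : M.Kae H
  cβ : M.Clo β
  nβ : M.Le 0 β
  big : ∃ e ∈ M.C, ∃ z ∈ e.target, (β e z).PosDef
  hol : ∀ k, M.HSecC (L k) (f k)
  wt : ∀ k, M.WtC (L k) (φ k)
  deg : ∀ k x, ∃ e ∈ M.C, x ∈ e.source ∧ (f k e (e x) = 0 → fderiv ℂ (f k e) (e x) ≠ 0 ∧
    ∃ v ≠ 0, fderiv ℂ (f k e) (e x) v = 0 ∧ β e (e x) *ᵥ v = 0)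
  nef : ∀ ε > (0 : ℝ), ∃ (ψ : M.X → ℝ) (C : ℝ), 0 ≤ C ∧ M.Sm ψ ∧
    M.Le 0 ((-M.ric H - ∑ k, ((a k : ℝ) / c) • M.hw (φ k)) + ε • β + M.hs ψ) ∧
    M.Le ((-M.ric H - ∑ k, ((a k : ℝ) / c) • M.hw (φ k)) + ε • β + M.hs ψ) (C • β)

/-- The nef class. -/
def Dk.T {n : ℕ} {M : Mf n} {I : Type} [Fintype I] (D : Dk M I) : M.Fam (Mat n) :=
  -M.ric D.H - ∑ k, ((D.a k : ℝ) / D.c) • M.hw (D.φ k)

/-- The norm of a section with a smooth zero set. -/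
def St_SG : Prop := ∀ (n : ℕ) (M : Mf n) [M.Cpt] (H : M.Fam (Mat n)) (L : M.Co) (f : M.Fam ℂ)
  (φ : M.Fam ℝ), M.Met H → M.HSecC L f → M.WtC L φ →
  (∀ x, ∃ e ∈ M.C, x ∈ e.source ∧ (f e (e x) = 0 → fderiv ℂ (f e) (e x) ≠ 0)) →
  DX.Sg M (M.hw φ) (M.nrC φ f) ∧ Dense {x | M.nrC φ f x ≠ 0} ∧
    ∃ C : ℝ, ∀ δ : ℝ, 0 < δ → ∫ x, (M.nrC φ f x + δ) ^ (-(1 / 2 : ℝ)) ∂M.mu H ≤ C

/-- The contracted hypersurfaces are orthogonal to the form. -/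
def St_ORT : Prop := ∀ (n : ℕ) (M : Mf n) [M.Cpt] (I : Type) [Fintype I] (D : Dk M I) (k : I),
  ∀ η > (0 : ℝ), ∀ᶠ ε in 𝓝[>] (0 : ℝ),
    ∫ x, M.tr (D.β + ε • D.H) (M.hw (D.φ k)) x ∂M.mu (D.β + ε • D.H) ≤ η

/-- The integrals. -/
def St_KLT : Prop := ∀ (X I : Type) [Fintype I] [MeasurableSpace X] (μ : Measure X)
  [IsFiniteMeasure μ] (σ : I → X → ℝ) (κ : I → ℝ) (B C : ℝ), (∀ i, 0 ≤ κ i) →
  (∀ i, Measurable (σ i) ∧ ∀ x, 0 ≤ σ i x ∧ σ i x ≤ B) →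
  (∀ i, ∀ δ : ℝ, 0 < δ → ∫ x, (σ i x + δ) ^ (-(1 / 2 : ℝ)) ∂μ ≤ C) →
  ∃ q δ C' : ℝ, 1 < q ∧ 0 < δ ∧ ∀ d ∈ Ioc (0 : ℝ) 1,
    ∫ x, Real.exp (q * ∑ i, κ i * DX.fl (σ i) d x) ∂μ ≤ C' ∧
    ∫ x, Real.exp (-(δ * ∑ i, κ i * DX.fl (σ i) d x)) ∂μ ≤ C'

/-- The data of the theorem on the Lelong numbers. -/
def St_DT : Prop := ∀ (n : ℕ) (M : Mf n) [M.Cpt] (I : Type) [Fintype I] (D : Dk M I),
  ∃ D' : ZE.Dt M I, D'.H = D.H ∧ D'.T = D.T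

/-- The tower of line bundles. -/
def St_TW : Prop := ∀ (n : ℕ) (M : Mf n) [M.Cpt] (I : Type) [Fintype I] (D : Dk M I),
  ∃ (L : ℕ → M.Co) (φ : ℕ → M.Fam ℝ) (A : M.Co) (ψ : M.Fam ℝ), L 0 = K3E.kan M 1 ∧
    φ 0 = K3E.wk D.H 1 ∧ Can D.H (L 0) (φ 0) ∧ (∀ b, Nx (L b) (φ b) A ψ (L (b + 1)) (φ (b + 1))) ∧
    (∀ b, M.All fun e z => M.hw (φ b) e z + M.ric D.H e z = ((b * D.c : ℕ) : ℝ) • D.T e z) ∧
    ∀ m t, M.HSecC (A.pw m) t → M.HSec (m * D.c) fun e z => t e z * ∏ k, D.f k e z ^ (m * D.a k)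

/-- Proportional sections give a section of a multiple of the twist. -/
def St_FIN : Prop := ∀ (n : ℕ) (M : Mf n) [M.Cpt] (H : M.Fam (Mat n)) (L : ℕ → M.Co)
  (φ : ℕ → M.Fam ℝ) (A : M.Co),
  (∀ b, M.Ov fun e e' x => (L (b + 1)).c e e' x = (L b).c e e' x * A.c e e' x) → A0 M →
  {b | ∃ V, (lam H (L b) (φ b)).Sec V ∧ Hol V ∧ Nz V}.Infinite →
  ∃ m, 0 < m ∧ ∃ t, M.HSecC (A.pw m) t ∧ ∃ e ∈ M.C, ∃ z ∈ e.target, t e z ≠ 0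

/-- The theorem on the manifold layer. -/
def St_MS : Prop := ∀ (n : ℕ) (M : Mf n) [M.Cpt] (I : Type) [Fintype I] (D : Dk M I),
  chi D.H 1 ≠ 0 → A0 M → ∃ m, 0 < m ∧ ∃ t, M.HSec m t ∧ ∃ e ∈ M.C, ∃ z ∈ e.target, t e z ≠ 0

/-- The refined atlas. -/
def St_RS : Prop := ∀ (n : ℕ) (M : Mf n) (ι : Type) (U : ι → Set M.X) (ho : ∀ i, IsOpen (U i))
  (hc : ∀ x, ∃ i, x ∈ U i), (∀ H : M.Fam (Mat n), chi (M := rs M ho hc) H 1 = chi H 1) ∧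
  (A0 M → A0 (rs M ho hc)) ∧ ∀ m t, (rs M ho hc).HSec m t →
    (∃ e ∈ (rs M ho hc).C, ∃ z ∈ e.target, t e z ≠ 0) →
    ∃ t', M.HSec m t' ∧ ∃ e ∈ M.C, ∃ z ∈ e.target, t' e z ≠ 0

/-- The data of the statement give the data on the manifold layer. -/
def St_BRG : Prop := ∀ (n : ℕ) (X ι I : Type) [TopologicalSpace X] [ChartedSpace (E n) X]
  [IsManifold 𝓘(ℂ, E n) ω X] [CompactSpace X] [T2Space X] [ConnectedSpace X] [Fintype I]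
  (G β : X → Mat n) (U : ι → Set X) (f : I → ι → X → ℂ) (u : I → ι → ι → X → ℂ) (a : I → ℚ)
  (hC : Ctr n β U f u), 0 < n → Kaehler G → Semi n G β → (∀ k, 0 ≤ a k) →
  NefW n G β U u (fun k => -a k) →
  ∃ D : Dk (rs (HS.BBR.mf n X) (U := U) hC.opn hC.cov) I, D.H = RB.R32.fam G

end Pool.Agent.Lib.K3S
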