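import Pool.Agent.Lib.K3S.Blue

/-! Project k3s: the theorem contains the case of a nef canonical bundle. -/

open scoped Classical Topology ContDiff ComplexOrder Matrix Manifold
open Set MeasureTheory Filter Complex

noncomputable section

namespace Pool.Agent.Lib.K3S

open Pool.Agent.Lib.SV (E)
open Pool.Agent.Lib.HS32 Pool.Agent.Lib.GH
open Pool.Agent.Lib.HS (inChart del)
open Pool.Agent.Lib.HS.BBR (mf)
open Pool.Agent.Lib.RB.R32 (fam)

theorem k3_of (h : St_TOP) : K3E.St_K3 := by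
  intro n X _ _ _ _ _ _ g hg hK hχ hA
  have e2 : ∀ x, inChart (g + g) x = fun z => inChart g x z + inChart g x z := fun x =>
    funext fun z => by simp only [inChart, Pi.add_apply, Matrix.mul_add, Matrix.add_mul]
  have e3 : ∀ x v, del v (inChart (g + g) x) (chartAt (E n) x x) =
      del v (inChart g x) (chartAt (E n) x x) + del v (inChart g x) (chartAt (E n) x x) :=
    fun x v => Matrix.ext fun i j => by
      have d := cd_diff (hg.smooth x i j)
      simp only [e2, del, Matrix.of_apply, Matrix.add_apply, fderiv_fun_add d d,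
        add_apply]
      ring
  obtain ⟨x₀⟩ : Nonempty X := inferInstance
  refine h n X Unit (Fin 0) g g (fun _ => univ) (fun _ _ _ => 1) (fun _ _ _ _ => 1) (fun _ => 0) hg
    ⟨⟨⟨fun x => (hg.pos x).add (hg.pos x), fun x i j => ?_⟩, fun x v w => ?_⟩,
      fun x => (hg.pos x).posSemidef, x₀, hg.pos x₀⟩
    ⟨fun _ => isOpen_univ, fun _ => ⟨(), trivial⟩, fun k => k.elim0, fun k => k.elim0,
      fun k => k.elim0⟩ (fun _ => le_rfl) (fun ε hε => ?_) hχ hA
  · rw [e2]
    exact (hg.smooth x i j).add (hg.smooth x i j)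
  · rw [e3, e3, Matrix.add_mulVec, Matrix.add_mulVec, hg.closed]
  let M : Mf n := mf n X
  have : M.Cpt := ⟨‹_›, ‹_›, ‹_›⟩
  let c : M.X → M.Ch := chartAt (M := X) (E n)
  have hc : ∀ x, c x ∈ M.C := HW.ch_mem (X := X)
  have hs : ∀ x, x ∈ (c x).source := mem_chart_source (M := X) (E n)
  obtain ⟨-, -, hJ, hsm, -⟩ := mTR n M
  have hk : M.Kae (fam g) := HW.kae hg
  obtain ⟨u, hu⟩ := hK ε hε
  have su : M.Sm u := (hsm ℝ u).2.2 fun x => ⟨c x, hc x, hs x, (hu x).1⟩
  obtain ⟨C, -, hC, -⟩ := (mBD n M _ hk.toMet).1 _ (((mHES n M).1 u su).sub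
    ((mHES n M).2.2.2.2.2.2.2.2.1 _ hk.toMet)).toForm
  refine ⟨fun _ => u, C, fun _ _ _ _ => by simp, fun _ x _ => ⟨(hu x).1, fun v =>
    ⟨(hu x).2 v, ?_⟩⟩⟩
  have hz := (c x).map_source (hs x)
  have e0 : fam g (c x) (c x x) = g x := by
    have := hJ _ (hc x) x (hs x)
    rw [Mf.J] at this
    simp only [fam, (c x).left_inv (hs x)]
    erw [this]
    simp
  have s1 := su _ (hc x) _ hz
  have s2 := ((mCOF n _ _ (hk.sm _ (hc x) _ hz)).2.2.2.2.2 (Mf.AllOn.ev hk.pos (hc x) hz))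
  have h3 : hess (fun w => ((u ((c x).symm w) + Real.log (fam g (c x) w).det.re : ℝ) : ℂ))
      (c x x) = M.hs u (c x) (c x x) - M.ric (fam g) (c x) (c x x) := by
    simp only [ofReal_add]
    refine (hess_add (cd_ofReal s1) (cd_ofReal s2.2.1)).trans ?_
    rw [Mf.ric, sub_neg_eq_add]
    rfl
  refine (HW.levi_eq (s1.add s2.2.1) v).le.trans ?_
  have h4 := (hC _ (hc x) _ hz).re_dotProduct_nonneg v
  simp only [Pi.sub_apply, Pi.smul_apply, e0, ← h3, Matrix.sub_mulVec, dotProduct_sub,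
    Matrix.smul_mulVec, dotProduct_smul, RCLike.re_to_complex, sub_re, real_smul,
    re_ofReal_mul] at h4
  exact sub_nonneg.1 h4

end Pool.Agent.Lib.K3S
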