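import Pool.Agent.Lib.K3E.SDefs
import Pool.Agent.Lib.ZK47.SDefs
import Pool.Agent.Lib.EX.SDefs

/-! Definitions used in the statement: a semi-positive big form, contracted hypersurfaces, and
nef classes of the form canonical class minus contracted divisor. -/

open scoped ContDiff Matrix Topology ComplexOrder

noncomputable section

namespace Pool.Agent.Lib.K3S

open Pool.Agent.Lib.SV Pool.Agent.Lib.HS Pool.Agent.Lib.KP Pool.Agent.Lib.HW Pool.Agent.Lib.GH
  Pool.Agent.Lib.EX Pool.Agent.Lib.ZK47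

variable (n : ℕ) {X ι I : Type} [TopologicalSpace X] [ChartedSpace (E n) X] [Fintype I]

/-- `β` is the difference of two Kähler forms, semi-positive, and positive at some point. -/
def Semi (G β : X → Mat n) : Prop :=
  Kaehler (G + β) ∧ (∀ x, (β x).PosSemidef) ∧ ∃ x, (β x).PosDef

/-- The functions `f k i` on the open sets `U i` of a covering are local equations, with
transition functions `u k i j`, of smooth hypersurfaces on whose tangent spaces `β` is
degenerate. -/
structure Ctr (β : X → Mat n) (U : ι → Set X) (f : I → ι → X → ℂ) (u : I → ι → ι → X → ℂ) :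
    Prop where
  opn : ∀ i, IsOpen (U i)
  cov : ∀ x, ∃ i, x ∈ U i
  hol : ∀ k i, ∀ x ∈ U i, HolAt n 0 (f k i) x
  unit : ∀ k i j, ∀ x ∈ U i ∩ U j,
    HolAt n 0 (u k i j) x ∧ u k i j x ≠ 0 ∧ f k i x = u k i j x * f k j x
  deg : ∀ k i, ∀ x ∈ U i, f k i x = 0 →
    dAt n (f k i) x ≠ 0 ∧ ∃ v ≠ 0, dAt n (f k i) x v = 0 ∧ β x *ᵥ v = 0

/-- For every `ε > 0` the class `K + ∑ b k D k` has a smooth metric `exp (-φ) / det G` whose
curvature form lies between `-ε β` and a multiple of `β`. -/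
def NefW (G β : X → Mat n) (U : ι → Set X) (u : I → ι → ι → X → ℂ) (b : I → ℝ) : Prop :=
  ∀ ε : ℝ, 0 < ε → ∃ (φ : ι → X → ℝ) (C : ℝ), Glue U u b (fun i x => φ i x) ∧ ∀ i, ∀ x ∈ U i,
    ContDiffAt ℝ ∞ (φ i ∘ (chartAt (E n) x).symm) (chartAt (E n) x x) ∧
    ∀ v, levi (fun z => φ i ((chartAt (E n) x).symm z) + Real.log (inChart G x z).det.re)
      (chartAt (E n) x x) v ∈ Set.Icc (-(ε * (star v ⬝ᵥ β x *ᵥ v).re)) (C * (star v ⬝ᵥ β x *ᵥ v).re)

end Pool.Agent.Lib.K3S
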